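import Pool.Agent.Helper87.GE.Stage

/-!
# GE: states of the cells, continuity of the criterion, Borel-Cantelli
-/

set_option autoImplicit false
open MeasureTheory Set Filter Topology
open Pool.Agent.Helper78.KD
open Pool.Agent.Helper18.KD (par idx pt Npos J_mono J_lt J_le t_mono len_pos par_lt par_eq exists_par ch_lt idx_lt idx_child pt_mem pt_mono)
open Pool.Agent.Helper82.FK (e)
open Pool.Agent.Helper18.GP (gp nm)
open Pool.Agent.Helper87.GP (Z fz cut continuous_fz continuous_cut cut_nonneg)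

namespace Pool.Agent.GE

variable {a : ℝ} {H : ℕ} {c : ℤ → ℂ}

theorem QE_cont (ha : 1 < a) (Hb : ℕ) (h : ℤ) (j J t : ℕ) : Continuous (QE a H Hb c h j J t) := by
  unfold QE
  refine continuous_finsetSum _ fun b _ => continuous_const.mul ?_
  exact (continuous_cut (by positivity)).comp (continuous_fz b)

theorem QE_nonneg (ha : 1 < a) (Hb : ℕ) (h : ℤ) (j J t : ℕ) (x : ℝ) : 0 ≤ QE a H Hb c h j J t x := by
  unfold QE
  exact Finset.sum_nonneg fun b _ => mul_nonneg (Finset.prod_nonneg fun _ _ => norm_nonneg _) (cut_nonneg (by positivity) _)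

/-- uniform continuity of the sums in the criterion -/
theorem crit_near {b : ℝ} (ha : 1 < a) (r J L : ℕ) {ε : ℝ} (hε : 0 < ε) : ∃ ρ > 0, ∀ x ∈ Icc a b, ∀ y ∈ Icc a b,
    |x - y| < ρ → (∀ h : ℤ, |h| ≤ r → ∀ j < L, ∑ t ∈ Finset.range L, QE a H (H + r) c h j J t x ≤ ε / 2) →
      Crit a H r c J L ε y := by
  set P : ℤ × ℕ → ℝ → ℝ := fun p x => ∑ t ∈ Finset.range L, QE a H (H + r) c p.1 p.2 J t x with hP
  have hPc : ∀ p, Continuous (P p) := fun p => continuous_finsetSum _ fun t _ => QE_cont ha _ _ _ _ _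
  have hev : ∀ᶠ ρ in 𝓝[>] (0 : ℝ), ∀ p ∈ (Finset.Icc (-(r : ℤ)) r) ×ˢ (Finset.range L), ∀ x ∈ Icc a b, ∀ y ∈ Icc a b,
      |x - y| < ρ → |P p x - P p y| < ε / 2 := by
    rw [Filter.eventually_all_finset]
    intro p _
    have h1 := (isCompact_Icc (a := a) (b := b)).uniformContinuousOn_of_continuous (hPc p).continuousOn
    rw [Metric.uniformContinuousOn_iff] at h1
    obtain ⟨ρ, hρ, h2⟩ := h1 (ε / 2) (by positivity)
    filter_upwards [Ioo_mem_nhdsGT hρ] with ρ' hρ' x hx y hy hxy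
    have := h2 x hx y hy (by rw [Real.dist_eq]; exact hxy.trans hρ'.2)
    rwa [Real.dist_eq] at this
  obtain ⟨ρ, hρ1, hρ2⟩ := (hev.and self_mem_nhdsWithin).exists
  refine ⟨ρ, hρ2, fun x hx y hy hxy hb h hh j hj => ?_⟩
  have h1 := hρ1 (h, j) (Finset.mem_product.2 ⟨Finset.mem_Icc.2 (abs_le.1 hh), Finset.mem_range.2 hj⟩) x hx y hy hxy
  have h2 := hb h hh j hj
  have h3 := abs_lt.1 h1
  simp only [hP] at h3
  linarith [h3.1]

/-- almost every point satisfies the criterion at all late stages -/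
theorem bc (ha : 1 < a) {T : Tr} {m : ℕ → ℕ → ℝ} {lam Ψ : ℝ} (hlam0 : 0 < lam) (hΨ : 0 < Ψ) {Φ : ℕ → ℝ} (hΦ : ∀ n, 0 < Φ n)
    {ε : ℕ → ℝ} (hε : ∀ r, 0 < ε r) {Jf Lf : ℕ → ℕ}
    (hP : ∀ r, (2 * r + 1) * (Lf r : ℝ) * (2 / ε r) * (Φ (H + r) * lam ^ (Jf r)) ≤ (1 / 2) ^ r)
    (hint : ∀ (Hb : ℕ) (h : ℤ), H + |h| ≤ Hb → ∀ j J L : ℕ,
          ∫⁻ w in Ico (0 : ℝ) 1, ENNReal.ofReal (∑ t ∈ Finset.range L, QE a H Hb c h j J t (pt T m w)) ≤
            ENNReal.ofReal (Ψ * Φ Hb * lam ^ J)) :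
    ∀ᵐ w ∂(volume.restrict (Ico (0 : ℝ) 1)), ∀ᶠ r in atTop, ∀ h : ℤ, |h| ≤ (r : ℕ) → ∀ j < Lf r,
      ∑ t ∈ Finset.range (Lf r), QE a H (H + r) c h j (Jf r) t (pt T m w) ≤ ε r / 2 := by
  set μ : Measure ℝ := volume.restrict (Ico (0 : ℝ) 1) with hμ
  set F : ℕ → ℤ × ℕ → ℝ → ℝ := fun r p w => ∑ t ∈ Finset.range (Lf r), QE a H (H + r) c p.1 p.2 (Jf r) t (pt T m w) with hF
  set bad : ℕ → Set ℝ := fun r => ⋃ p ∈ (Finset.Icc (-(r : ℤ)) r) ×ˢ (Finset.range (Lf r)), {w | ε r / 2 ≤ F r p w} with hbad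
  have hFm : ∀ r p, Measurable (F r p) := fun r p =>
    ((continuous_finsetSum _ fun t _ => QE_cont ha _ _ _ _ _).measurable).comp pt_mono.measurable
  have h1 : ∀ r, μ (bad r) ≤ ENNReal.ofReal (Ψ * (1 / 2) ^ r) := by
    intro r
    have hr := hε r
    have h2 : ∀ p ∈ (Finset.Icc (-(r : ℤ)) r) ×ˢ (Finset.range (Lf r)), μ {w | ε r / 2 ≤ F r p w} ≤
        ENNReal.ofReal ((2 / ε r) * (Ψ * Φ (H + r) * lam ^ (Jf r))) := by
      intro p hp
      obtain ⟨hp1, -⟩ := Finset.mem_product.1 hp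
      have hp2 : |p.1| ≤ (r : ℤ) := abs_le.2 (Finset.mem_Icc.1 hp1)
      have h3 := mul_meas_ge_le_lintegral (μ := μ) ((hFm r p).ennreal_ofReal) (ENNReal.ofReal (ε r / 2))
      have h4 := hint (H + r) p.1 (by push_cast; linarith) p.2 (Jf r) (Lf r)
      have h5 : {w | ε r / 2 ≤ F r p w} ⊆ {w | ENNReal.ofReal (ε r / 2) ≤ ENNReal.ofReal (F r p w)} := fun w hw =>
        ENNReal.ofReal_le_ofReal hw
      have h6 : ENNReal.ofReal (ε r / 2) * μ {w | ε r / 2 ≤ F r p w} ≤ ENNReal.ofReal (Ψ * Φ (H + r) * lam ^ (Jf r)) :=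
        (mul_le_mul_right (measure_mono h5) _).trans (h3.trans h4)
      have h7 : ENNReal.ofReal (ε r / 2) ≠ 0 := by
        rw [Ne, ENNReal.ofReal_eq_zero, not_le]
        positivity
      have h8 : ENNReal.ofReal (2 / ε r) * ENNReal.ofReal (ε r / 2) = 1 := by
        rw [← ENNReal.ofReal_mul (by positivity), ← ENNReal.ofReal_one]
        congr 1
        field_simp
      calc μ {w | ε r / 2 ≤ F r p w} = (ENNReal.ofReal (2 / ε r) * ENNReal.ofReal (ε r / 2)) * μ {w | ε r / 2 ≤ F r p w} := by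
            rw [h8, one_mul]
        _ = ENNReal.ofReal (2 / ε r) * (ENNReal.ofReal (ε r / 2) * μ {w | ε r / 2 ≤ F r p w}) := mul_assoc _ _ _
        _ ≤ ENNReal.ofReal (2 / ε r) * ENNReal.ofReal (Ψ * Φ (H + r) * lam ^ (Jf r)) := mul_le_mul_right h6 _
        _ = _ := (ENNReal.ofReal_mul (by positivity)).symm
    calc μ (bad r) ≤ ∑ p ∈ (Finset.Icc (-(r : ℤ)) r) ×ˢ (Finset.range (Lf r)), μ {w | ε r / 2 ≤ F r p w} :=
          measure_biUnion_finset_le _ _
      _ ≤ ∑ p ∈ (Finset.Icc (-(r : ℤ)) r) ×ˢ (Finset.range (Lf r)), ENNReal.ofReal ((2 / ε r) * (Ψ * Φ (H + r) * lam ^ (Jf r))) :=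
          Finset.sum_le_sum h2
      _ = ENNReal.ofReal (∑ p ∈ (Finset.Icc (-(r : ℤ)) r) ×ˢ (Finset.range (Lf r)), (2 / ε r) * (Ψ * Φ (H + r) * lam ^ (Jf r))) := by
          rw [ENNReal.ofReal_sum_of_nonneg]
          intro p _
          have := hΦ (H + r)
          positivity
      _ ≤ _ := by
          refine ENNReal.ofReal_le_ofReal ?_
          rw [Finset.sum_const, Finset.card_product, Int.card_Icc, Finset.card_range, nsmul_eq_mul]
          have h9 := mul_le_mul_of_nonneg_left (hP r) hΨ.le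
          have h10 : (((r : ℤ) + 1 - -(r : ℤ)).toNat : ℝ) = 2 * r + 1 := by
            have : ((r : ℤ) + 1 - -(r : ℤ)).toNat = 2 * r + 1 := by omega
            rw [this]
            push_cast
            ring
          push_cast
          rw [h10]
          calc (2 * (r : ℝ) + 1) * (Lf r : ℝ) * (2 / ε r * (Ψ * Φ (H + r) * lam ^ Jf r)) =
                Ψ * ((2 * r + 1) * (Lf r : ℝ) * (2 / ε r) * (Φ (H + r) * lam ^ (Jf r))) := by ring
            _ ≤ _ := h9
  have h11 : ∑' r, μ (bad r) ≠ ⊤ := by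
    have h12 : Summable fun r : ℕ => Ψ * (1 / 2 : ℝ) ^ r := (summable_geometric_of_lt_one (by norm_num) (by norm_num)).mul_left Ψ
    refine ne_top_of_le_ne_top ?_ (ENNReal.tsum_le_tsum h1)
    rw [← ENNReal.ofReal_tsum_of_nonneg (fun r => by positivity) h12]
    exact ENNReal.ofReal_ne_top
  have h13 := ae_eventually_notMem h11
  filter_upwards [h13] with w hw
  filter_upwards [hw] with r hr h hh j hj
  by_contra hcon
  push Not at hcon
  refine hr ?_
  simp only [hbad, Set.mem_iUnion]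
  exact ⟨(h, j), Finset.mem_product.2 ⟨Finset.mem_Icc.2 (abs_le.1 hh), Finset.mem_range.2 hj⟩, hcon.le⟩

/-- a path is good from some level on -/
theorem st_ev {T : Tr} {m : ℕ → ℕ → ℝ} (hms : Ms T m) {start : ℕ → Prop} {Cr : ℕ → ℝ → Prop} {w : ℝ} (hw : w ∈ Ico (0 : ℝ) 1)
    (hs : ∃ᶠ k in atTop, start k) (hC : ∀ᶠ k in atTop, start k → Cr k (T.t k (idx T m k w))) :
    ∀ᶠ k in atTop, stE T start Cr k (idx T m k w) := by
  classical
  obtain ⟨k₁, hk₁⟩ := eventually_atTop.1 hC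
  obtain ⟨k₂, hk₂, hs₂⟩ := frequently_atTop.1 hs (k₁ + 1)
  refine eventually_atTop.2 ⟨k₂, fun k hk => ?_⟩
  induction k, hk using Nat.le_induction with
  | base =>
    obtain ⟨k', rfl⟩ : ∃ k', k₂ = k' + 1 := ⟨k₂ - 1, by omega⟩
    simp only [stE]
    rw [if_pos hs₂]
    exact hk₁ _ (by omega) hs₂
  | succ k hk ih =>
    simp only [stE]
    split_ifs with h
    · exact hk₁ _ (by omega) h
    · have h1 := idx_child hms.zero hms.nn hms.sum k hw.1 hw.2
      have h2 : idx T m (k + 1) w ∈ T.ch k (idx T m k w) := by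
        unfold Tr.ch
        exact Finset.mem_Ico.2 h1
      rw [par_eq T k (idx_lt k w) h2]
      exact ih

/-- what the state knows -/
theorem st_inv {T : Tr} {a' b' : ℝ} (hmem : ∀ k i, i ≤ T.N k → T.t k i ∈ Icc a' b') {R : ℕ → ℕ} (hR0 : R 0 = 0) (hRm : Monotone R)
    {Q : ℕ → ℝ → Prop} {ρ : ℕ → ℝ} (hlen : ∀ k i, i < T.N k → R k ≠ 0 → T.len k i < ρ (R k)) :
    ∀ k i, i < T.N k → stE T (fun k => R k ≠ R (k - 1)) (fun k x => Q (R k) x) k i →
      R k ≠ 0 ∧ ∃ x0 ∈ Icc a' b', Q (R k) x0 ∧ ∀ y ∈ T.cell k i, |y - x0| < ρ (R k) := by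
  classical
  intro k
  induction k with
  | zero => intro i _ h; exact absurd h (by simp [stE])
  | succ k ih =>
    intro j hj h
    simp only [stE] at h
    split_ifs at h with hs
    · have h1 : R (k + 1) ≠ 0 := by
        simp only [Nat.add_sub_cancel] at hs
        have := hRm (Nat.le_succ k)
        simp only [Nat.succ_eq_add_one] at this
        omega
      refine ⟨h1, T.t (k + 1) j, hmem (k + 1) j hj.le, h, fun y hy => ?_⟩
      have h2 := hlen (k + 1) j hj h1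
      unfold Tr.len at h2
      rw [abs_of_nonneg (by linarith [hy.1])]
      linarith [hy.2]
    · simp only [Nat.add_sub_cancel, ne_eq, not_not] at hs
      obtain ⟨i, hi, hji⟩ := exists_par T k j hj
      rw [par_eq T k hi hji] at h
      obtain ⟨h1, x0, hx0, h2, h3⟩ := ih i hi h
      rw [hs]
      refine ⟨h1, x0, hx0, h2, fun y hy => h3 y ?_⟩
      unfold Tr.ch at hji
      rw [Finset.mem_Ico] at hji
      have h4 := t_mono T (k + 1) hji.1 hj.le
      have h5 := t_mono T (k + 1) (show j + 1 ≤ T.J k (i + 1) by omega) (J_le T k hi)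
      rw [T.ref k i hi.le] at h4
      rw [T.ref k (i + 1) hi] at h5
      exact ⟨h4.trans hy.1, hy.2.trans h5⟩

theorem start_freq {R : ℕ → ℕ} (hRm : Monotone R) (hRi : Tendsto R atTop atTop) : ∃ᶠ k in atTop, R k ≠ R (k - 1) := by
  rw [frequently_atTop]
  intro k₀
  by_contra hcon
  push Not at hcon
  have h1 : ∀ k ≥ k₀, R k = R k₀ := by
    intro k hk
    induction k, hk using Nat.le_induction with
    | base => rfl
    | succ k hk ih =>
      have := hcon (k + 1) (by omega)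
      simp only [Nat.add_sub_cancel] at this
      rw [this, ih]
  obtain ⟨k, hk1, hk2⟩ := ((hRi.eventually_gt_atTop (R k₀)).and (eventually_ge_atTop k₀)).exists
  have := h1 k hk2
  omega

end Pool.Agent.GE
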