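import Pool.Agent.Helper87.GE.Cell
import Pool.Agent.Helper31.GE.E9
import Pool.Agent.Helper24.GE.Lln

/-!
# GE: the lower bound (E10)
-/

set_option autoImplicit false
open MeasureTheory Set Filter Topology
open Pool.Agent.Helper78.KD
open Pool.Agent.Helper18.KD (par idx pt Npos J_mono J_lt J_le t_mono len_pos par_lt par_eq exists_par ch_lt idx_lt idx_child pt_mem pt_mono)
open Pool.Agent.Helper82.FK (e norm_e continuous_e)
open Pool.Agent.Helper18.GP (gp nm)
open Pool.Agent.Helper59.MF (Dens cc HasLaw DD)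
open Pool.Agent.Helper87.GP (Z fz cut contOn_u)

namespace Pool.Agent.GE

/-- the estimate of E7 for fixed data -/
def E7 (a b α lam : ℝ) (H : ℕ) (c : ℤ → ℂ) (Φ : ℕ → ℝ) : Prop :=
  ∀ (T : Tr) (m : ℕ → ℕ → ℝ) (nk : ℕ → ℕ) (Cl Cm : ℝ), Ms T m → (∀ k i, i ≤ T.N k → T.t k i ∈ Icc α b) → nk 0 = 0 →
    Tendsto nk atTop atTop → (∀ k, nk k ≤ nk (k + 1)) → (∀ ε > 0, ∃ C : ℝ, ∀ k, (nk (k + 1) : ℝ) ≤ (1 + ε) * nk k + C) →
    (∀ k i, i < T.N k → T.len k i ≤ Cl * (α ^ (nk k))⁻¹) →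
    (∀ k i, i < T.N k → m k i ≤ Cm * T.len k i * a ^ (kE a H * nk k)) →
    ∃ Ψ : ℝ, 0 < Ψ ∧ ∀ (Hb : ℕ) (h : ℤ), H + |h| ≤ Hb → ∀ j J L : ℕ,
      ∫⁻ w in Ico (0 : ℝ) 1, ENNReal.ofReal (∑ t ∈ Finset.range L, QE a H Hb c h j J t (pt T m w)) ≤
        ENNReal.ofReal (Ψ * Φ Hb * lam ^ J)

/-- the precision of the stage `r` -/
noncomputable def εs (r : ℕ) : ℝ := 1 / (6 * ((r : ℝ) + 1))

theorem εs_pos (r : ℕ) : 0 < εs r := by unfold εs; positivity

theorem εs_six (r : ℕ) : 6 * εs r = 1 / ((r : ℝ) + 1) := by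
  unfold εs
  field_simp

theorem εs_le (r : ℕ) : 6 * εs r ≤ 1 := by
  rw [εs_six, div_le_one (by positivity)]
  have : (0 : ℝ) ≤ r := Nat.cast_nonneg r
  linarith

/-- the gaps can be chosen -/
theorem gap_ev {lam : ℝ} (h0 : 0 < lam) (h1 : lam < 1) (A : ℕ → ℝ) (r : ℕ) :
    ∀ᶠ J : ℕ in atTop, (2 * (r : ℝ) + 1) * ((J ^ 2 : ℕ) : ℝ) * (2 / εs r) * (A r * lam ^ J) ≤ (1 / 2) ^ r := by
  have h2 := tendsto_pow_const_mul_const_pow_of_abs_lt_one 2 (show |lam| < 1 by rwa [abs_of_pos h0])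
  have h3 : Tendsto (fun J : ℕ => (2 * (r : ℝ) + 1) * (2 / εs r) * A r * ((J : ℝ) ^ 2 * lam ^ J)) atTop
      (𝓝 ((2 * (r : ℝ) + 1) * (2 / εs r) * A r * 0)) := h2.const_mul _
  rw [mul_zero] at h3
  filter_upwards [h3.eventually_le_const (show (0 : ℝ) < (1 / 2) ^ r by positivity)] with J hJ
  push_cast
  calc (2 * (r : ℝ) + 1) * (J : ℝ) ^ 2 * (2 / εs r) * (A r * lam ^ J) =
        (2 * (r : ℝ) + 1) * (2 / εs r) * A r * ((J : ℝ) ^ 2 * lam ^ J) := by ring
    _ ≤ _ := hJ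

/-- the masses are bounded by powers -/
theorem crude_pow {M q : ℝ} (hM : 1 ≤ M) (hMq : M < q) {B : ℕ → ℕ} (hBi : Tendsto B atTop atTop) :
    ∃ C : ℝ, 0 < C ∧ ∀ k, (2 : ℝ) ^ k * M ^ (nn B k) ≤ C * q ^ (nn B k) := by
  have hM0 : 0 < M := by linarith
  have h1 : 1 < q / M := by rwa [one_lt_div hM0]
  obtain ⟨Q, hQ⟩ := pow_unbounded_of_one_lt 2 h1
  obtain ⟨C, hC⟩ := nn_mul hBi Q
  refine ⟨(q / M) ^ C, by positivity, fun k => ?_⟩
  have h2 : (2 : ℝ) ^ k ≤ (q / M) ^ (nn B k + C) := by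
    calc (2 : ℝ) ^ k ≤ ((q / M) ^ Q) ^ k := pow_le_pow_left₀ (by norm_num) hQ.le k
      _ = (q / M) ^ (Q * k) := (pow_mul _ _ _).symm
      _ ≤ (q / M) ^ (nn B k + C) := pow_le_pow_right₀ h1.le (hC k)
  calc (2 : ℝ) ^ k * M ^ (nn B k) ≤ (q / M) ^ (nn B k + C) * M ^ (nn B k) := mul_le_mul_of_nonneg_right h2 (by positivity)
    _ = (q / M) ^ C * q ^ (nn B k) := by
        rw [pow_add, div_pow q M (nn B k)]
        field_simp

theorem lower_beta {a b α lam : ℝ} (ha : 1 < a) (haα : a < α) {H : ℕ} {c : ℤ → ℂ} {g : ℝ → ℝ}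
    (hg : ∀ t, gp H c t = g t) (hc : c 0 = 1) (hg0 : ∀ t, 0 < g t) (hW : nm H c < a ^ (kE a H)) (hlam0 : 0 < lam)
    (hlam1 : lam < 1) {Φ : ℕ → ℝ} (hΦ : ∀ n, 0 < Φ n) (hE7 : E7 a b α lam H c Φ) {β₁ : ℝ} (hαβ : α < β₁) (hβb : β₁ < b)
    (s : ℕ → ℝ) :
    ENNReal.ofReal (1 - DD g / Real.log β₁) ≤
      dimH {x : ℝ | x ∈ Ioo a b ∧ ∀ h : ℤ, Tendsto (fun N : ℕ => (∑ n ∈ Finset.range N, e (h * (x ^ (n + 1) + s n))) / (N : ℂ)) atTop
        (𝓝 (cc H c h))} := by
  classical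
  have hd := dens hg hc hg0
  have hgc : Continuous g := hd.cont
  have ha0 : 0 < a := by linarith
  have hα0 : 0 < α := by linarith
  have hα1 : 1 < α := by linarith
  have hβ1 : 1 < β₁ := by linarith
  have hlogβ : 0 < Real.log β₁ := Real.log_pos hβ1
  have hab : a ≤ b := by linarith
  -- the family
  obtain ⟨x₀, hx₀1, hx₀2⟩ := exists_between hβb
  obtain ⟨r₀, hr₀, hinst⟩ := Pool.Agent.Helper80.KD.inst_pow (x₀ := x₀) (τ := 1) (hβ1.trans hx₀1) hβ1 hx₀1 hx₀2 one_pos 0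
  obtain ⟨n₀, v, a', b', hx, hsub, hF', -, -⟩ := hinst 1 one_pos s x₀ ⟨by linarith, by linarith⟩ _
    (Ioo_mem_nhds hx₀1 hx₀2) 0 1 one_pos
  have hF : Fam (uu n₀ s) v a' b' β₁ b := hF'
  have hab' : a' < b' := hF.hab
  have ha'b' : Icc a' b' ⊆ Ioo β₁ b := hsub
  have hsubab : Icc a' b' ⊆ Icc a b := fun x hx => ⟨by linarith [(ha'b' hx).1], (ha'b' hx).2.le⟩
  obtain ⟨cs, Cs, hcs, hCs, hsize⟩ := Pool.Agent.Helper53.KD.size hF
  -- the gaps
  obtain ⟨Jf, hJm, hJr, hJP⟩ := exists_gap _ (gap_ev hlam0 hlam1 fun r => Φ (H + r))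
  -- the thresholds
  choose n0 ρ hρ hloc using fun r : ℕ => local_E ha hab hg hc hg0 r (Jf r) (Jf r ^ 2) (εs_pos r)
  choose ρ' hρ' hnear using fun r : ℕ => crit_near (a := a) (H := H) (c := c) (b := b) ha r (Jf r) (Jf r ^ 2) (εs_pos r)
  have hlen0 : ∀ r, ∃ Θ : ℕ, ∀ k ≥ Θ, Cs * Real.exp (-(k * Real.log β₁)) < min (ρ r) (ρ' r) := by
    intro r
    have h1 : Tendsto (fun k : ℕ => Cs * Real.exp (-((k : ℝ) * Real.log β₁))) atTop (𝓝 (Cs * 0)) := by
      refine Tendsto.const_mul _ (Real.tendsto_exp_neg_atTop_nhds_zero.comp ?_)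
      exact tendsto_natCast_atTop_atTop.atTop_mul_const hlogβ
    rw [mul_zero] at h1
    exact eventually_atTop.1 (h1.eventually_lt_const (lt_min (hρ r) (hρ' r)))
  choose Θ₃ hΘ₃ using hlen0
  obtain ⟨R, hR0, hRm, hRi, hRΘ, J, L, B, hB, hJL, hB1, hB4, hBm, hBi, hJB⟩ :=
    blocks (fun r => n0 r + Θ₃ r) Jf hJm hJr
  have hnk : ∀ k, k ≤ nn B k := nn_ge hB1
  -- the tree
  obtain ⟨T, ht0, ht1, hT⟩ := exists_treeE hF B
  have hlenT : ∀ k i, i < T.N k → T.len k i ≤ Cs * Real.exp (-((nn B k : ℕ) * Real.log β₁)) := by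
    intro k i hi
    obtain ⟨h1, h2⟩ := hT.inc k i hi
    exact (hsize (nn B k) _ (hT.mem k i hi.le) _ (hT.mem k (i + 1) hi) (T.lt k i hi) h1 h2).2
  have hlenR : ∀ k i, i < T.N k → R k ≠ 0 → T.len k i < min (ρ (R k)) (ρ' (R k)) := by
    intro k i hi hk
    refine (hlenT k i hi).trans_lt ?_
    refine hΘ₃ (R k) (nn B k) ?_
    have := hRΘ k hk
    have := hnk k
    omega
  -- states and masses
  set Q : ℕ → ℝ → Prop := fun r x => Crit a H r c (Jf r) (Jf r ^ 2) (εs r) x with hQ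
  set st : ℕ → ℕ → Prop := stE T (fun k => R k ≠ R (k - 1)) (fun k x => Q (R k) x) with hst
  set tf := tfE (uu n₀ s) g J L B st with htf
  set m := em T tf with hm
  have htfc : ∀ k i, ContinuousOn (tf k i) (Icc a' b') := fun k i => tfE_cont hF hgc k i
  have htfp : ∀ k i, ∀ x ∈ Icc a' b', 0 < tf k i x := fun k i x _ => tfE_pos hg0 k i x
  have hms : Ms T m := em_ms hT.mem htfc htfp
  have hinv := st_inv hT.mem hR0 hRm (Q := Q) (ρ := ρ) (fun k i hi hk => (hlenR k i hi hk).trans_le (min_le_left _ _))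
  -- the means on a good cell
  have hfacts : ∀ k i, i < T.N k → st k i → R k ≠ 0 ∧
      |ic T k i (tf k i) - T.len k i| ≤ 3 * εs (R k) * T.len k i ∧
      ∀ h : ℤ, |h| ≤ (R k : ℕ) → ∀ l < L k,
        ‖(∫ x in (T.t k i)..(T.t k (i + 1)), e (h * uu n₀ s (nn B k + J k + l) x) * (tf k i x : ℂ)) -
          cc H c h * ((T.len k i : ℝ) : ℂ)‖ ≤ 3 * εs (R k) * T.len k i := by
    intro k i hi hsti
    obtain ⟨hRk, x0, hx0, hcrit, hnr⟩ := hinv k i hi hsti
    obtain ⟨hJk, hLk⟩ := hJL k hRk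
    have h1 := hT.mem k i hi.le
    have h2 := hT.mem k (i + 1) hi
    have hlt := T.lt k i hi
    obtain ⟨hi1, hi2⟩ := hT.inc k i hi
    have h3 := abs_lt.1 (hnr (T.t k i) ⟨le_rfl, hlt.le⟩)
    have h4 := abs_lt.1 (hnr (T.t k (i + 1)) ⟨hlt.le, le_rfl⟩)
    have hn : n0 (R k) ≤ nn B k + n₀ + 1 := by
      have := hRΘ k hRk
      have := hnk k
      omega
    have h5 := cell_facts (hloc (R k) x0 (hsubab hx0) hcrit) hn s (hsubab h1).1 hlt (hsubab h2).2 (by linarith [h3.1])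
      (by linarith [h4.2]) hi1 hi2
    have e1 : tf k i = fun x => ∏ j ∈ Finset.range (L k), g (uu n₀ s (nn B k + J k + j) x) := by
      funext x
      simp only [htf, tfE, if_pos hsti]
    rw [← hLk, ← hJk] at h5
    refine ⟨hRk, ?_, ?_⟩
    · rw [e1]
      exact h5.1
    · intro h hh l hl
      rw [e1]
      exact h5.2 h hh l hl
  have hI : ∀ k i, i < T.N k → st k i → T.len k i / 2 ≤ ic T k i (tf k i) := by
    intro k i hi hsti
    obtain ⟨hRk, h1, -⟩ := hfacts k i hi hsti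
    have h2 := (abs_le.1 h1).1
    have h3 := len_pos T k hi
    have h4 := εs_le (R k)
    nlinarith
  -- crude bound
  obtain ⟨K₀, B0, hK₀, hlipl, hB0⟩ := log_lip hd
  have hW1 : 1 ≤ nm H c := one_le_nm hc
  have hcr := em_crude hF hgc hg0 (fun t => g_le_nm hg t) hB hT hW1 hI
  obtain ⟨C₂, hC₂, hC₂b⟩ := crude_pow hW1 hW hBi
  have hl00 : 0 < T.len 0 0 := len_pos T 0 (Npos T 0)
  have hcm : ∀ k i, i < T.N k → m k i ≤ (C₂ / T.len 0 0) * T.len k i * a ^ (kE a H * (nn B k : ℕ)) := by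
    intro k i hi
    have h1 := hcr k i hi
    have h2 := hC₂b k
    have h3 := len_pos T k hi
    have h4 : (a ^ (kE a H)) ^ (nn B k) = a ^ (kE a H * (nn B k : ℕ)) := by
      rw [← Real.rpow_natCast, ← Real.rpow_mul ha0.le]
    rw [h4] at h2
    calc m k i ≤ T.len k i / T.len 0 0 * 2 ^ k * nm H c ^ (nn B k) := h1
      _ = T.len k i / T.len 0 0 * (2 ^ k * nm H c ^ (nn B k)) := by ring
      _ ≤ T.len k i / T.len 0 0 * (C₂ * a ^ (kE a H * (nn B k : ℕ))) := mul_le_mul_of_nonneg_left h2 (by positivity)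
      _ = _ := by ring
  -- the measure of the bad points
  have hlα : ∀ k i, i < T.N k → T.len k i ≤ Cs * (α ^ (nn B k))⁻¹ := by
    intro k i hi
    refine (hlenT k i hi).trans (mul_le_mul_of_nonneg_left ?_ hCs.le)
    rw [Real.exp_neg, Real.exp_nat_mul, Real.exp_log (by linarith)]
    exact inv_anti₀ (by positivity) (pow_le_pow_left₀ hα0.le hαβ.le _)
  have hratio : ∀ ε > 0, ∃ C : ℝ, ∀ k, ((nn B (k + 1) : ℕ) : ℝ) ≤ (1 + ε) * (nn B k : ℕ) + C := by
    intro ε hε
    obtain ⟨C, -, hC⟩ := blk_small hB1 hB4 hε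
    refine ⟨C, fun k => ?_⟩
    have h1 : ((nn B (k + 1) : ℕ) : ℝ) = nn B k + B k := by
      show ((nn B k + B k : ℕ) : ℝ) = _
      push_cast
      ring
    rw [h1]
    linarith [hC k]
  have hnmono : ∀ k, nn B k ≤ nn B (k + 1) := fun k => Nat.le_add_right _ _
  obtain ⟨Ψ, hΨ, hint⟩ := hE7 T m (nn B) Cs (C₂ / T.len 0 0) hms (fun k i hi => ⟨by linarith [(ha'b' (hT.mem k i hi)).1],
    (ha'b' (hT.mem k i hi)).2.le⟩) rfl (nn_tendsto hB1) hnmono hratio hlα hcm
  have hbc := bc (a := a) (H := H) (c := c) ha hlam0 hΨ hΦ (ε := εs) εs_pos (Jf := Jf) (Lf := fun r => Jf r ^ 2) hJP hint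
  -- almost every path is good from some level on
  have hIco : ∀ᵐ w ∂(volume.restrict (Ico (0 : ℝ) 1)), w ∈ Ico (0 : ℝ) 1 := ae_restrict_mem measurableSet_Ico
  have hgood : ∀ᵐ w ∂(volume.restrict (Ico (0 : ℝ) 1)), ∀ᶠ k in atTop, st k (idx T m k w) := by
    filter_upwards [hbc, hIco] with w hw hw1
    refine st_ev hms hw1 (start_freq hRm hRi) ?_
    filter_upwards [hRi.eventually hw, hRi.eventually_ne_atTop 0] with k hk hk0 _
    have h1 := pt_mem hms.zero hms.nn hms.sum k hw1.1 hw1.2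
    have h2 := idx_lt (T := T) (m := m) k w
    have h3 := hlenR k _ h2 hk0
    have h4 := hT.mem k (idx T m k w) h2.le
    have h5 := hT.mem k (idx T m k w + 1) h2
    refine hnear (R k) (pt T m w) ⟨by linarith [h1.1, (hsubab h4).1], by linarith [h1.2, (hsubab h5).2]⟩ _ (hsubab h4) ?_ hk
    rw [abs_of_nonneg (by linarith [h1.1])]
    have h6 : T.len k (idx T m k w) < ρ' (R k) := h3.trans_le (min_le_right _ _)
    unfold Tr.len at h6
    linarith [h1.2]
  -- law of large numbers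
  have hδ0 : Tendsto (fun k => 6 * εs (R k)) atTop (𝓝 0) := by
    simp_rw [εs_six]
    have h2 : Tendsto (fun k => (R k : ℝ) + 1) atTop atTop :=
      tendsto_atTop_add_const_right _ _ (tendsto_natCast_atTop_atTop.comp hRi)
    exact h2.const_div_atTop 1
  have hmeans : ∀ h : ℤ, ∀ k i, i < T.N k → st k i → |h| ≤ (R k : ℕ) → ∀ l < L k,
      |ic T k i (fun x => obr h (cc H c h) (uu n₀ s (nn B k + J k + l) x) * tf k i x)| ≤ 6 * εs (R k) * ic T k i (tf k i) ∧
      |ic T k i (fun x => obi h (cc H c h) (uu n₀ s (nn B k + J k + l) x) * tf k i x)| ≤ 6 * εs (R k) * ic T k i (tf k i) := by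
    intro h k i hi hsti hh l hl
    obtain ⟨hRk, h1, h2⟩ := hfacts k i hi hsti
    have hcs : Icc (T.t k i) (T.t k (i + 1)) ⊆ Icc a' b' := cell_sub hT.mem hi
    have h3 := ob_mean (T.lt k i hi) (F := tf k i) (U := uu n₀ s (nn B k + J k + l)) ((htfc k i).mono hcs)
      ((contOn_u hF _).mono hcs) (norm_cc hd h) (εs_pos (R k)).le (εs_le (R k)) h1 (h2 h hh l hl)
    exact ⟨h3.2.1, h3.2.2⟩
  have hll : ∀ h : ℤ, ∀ᵐ w ∂(volume.restrict (Ico (0 : ℝ) 1)),
      Tendsto (fun N : ℕ => (∑ n ∈ Finset.range N, e (h * uu n₀ s n (pt T m w))) / (N : ℂ)) atTop (𝓝 (cc H c h)) := by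
    intro h
    set δ : ℕ → ℝ := fun k => if |h| ≤ (R k : ℕ) then 6 * εs (R k) else 1 with hδ
    have hδt : Tendsto δ atTop (𝓝 0) := by
      refine hδ0.congr' ?_
      filter_upwards [hRi.eventually_ge_atTop h.natAbs] with k hk
      simp only [hδ]
      rw [if_pos]
      have : (h.natAbs : ℤ) ≤ (R k : ℤ) := by exact_mod_cast hk
      rwa [Int.natCast_natAbs] at this
    have hall : ∀ φ : ℝ → ℝ, Continuous φ → (∀ t, |φ t| ≤ 1) → (∀ k i, i < T.N k → st k i → |h| ≤ (R k : ℕ) → ∀ l < L k,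
        |ic T k i (fun x => φ (uu n₀ s (nn B k + J k + l) x) * tf k i x)| ≤ 6 * εs (R k) * ic T k i (tf k i)) →
        ∀ k i, i < T.N k → st k i → ∀ l < L k,
          |ic T k i (fun x => φ (uu n₀ s (nn B k + J k + l) x) * tf k i x)| ≤ δ k * ic T k i (tf k i) := by
      intro φ hφc hφ1 hφ k i hi hsti l hl
      simp only [hδ]
      split_ifs with hh
      · exact hφ k i hi hsti hh l hl
      · rw [one_mul]
        have hcs : Icc (T.t k i) (T.t k (i + 1)) ⊆ Icc a' b' := cell_sub hT.mem hi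
        have hc1 : ContinuousOn (fun x => φ (uu n₀ s (nn B k + J k + l) x) * tf k i x) (Icc a' b') :=
          (hφc.comp_continuousOn (contOn_u hF _)).mul (htfc k i)
        have hb1 : ∀ x ∈ T.cell k i, φ (uu n₀ s (nn B k + J k + l) x) * tf k i x ≤ tf k i x := fun x hx => by
          have h1 := (abs_le.1 (hφ1 (uu n₀ s (nn B k + J k + l) x))).2
          have h2 := (htfp k i x (hcs hx)).le
          nlinarith
        have hb2 : ∀ x ∈ T.cell k i, -tf k i x ≤ φ (uu n₀ s (nn B k + J k + l) x) * tf k i x := fun x hx => by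
          have h1 := (abs_le.1 (hφ1 (uu n₀ s (nn B k + J k + l) x))).1
          have h2 := (htfp k i x (hcs hx)).le
          nlinarith
        rw [abs_le]
        constructor
        · have h3 := ic_mono hT.mem (htfc k i).neg hc1 hi hb2
          have h4 : ic T k i (-tf k i) = -ic T k i (tf k i) := by
            unfold ic
            simp only [Pi.neg_apply]
            exact intervalIntegral.integral_neg
          rw [h4] at h3
          exact h3
        · exact ic_mono hT.mem hc1 (htfc k i) hi hb1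
    have hz := norm_cc hd h
    have hcr : Continuous (obr h (cc H c h)) := by
      unfold obr
      exact ((Complex.continuous_re.comp ((continuous_e.comp (continuous_const.mul continuous_id)).sub continuous_const))).div_const 2
    have hci : Continuous (obi h (cc H c h)) := by
      unfold obi
      exact ((Complex.continuous_im.comp ((continuous_e.comp (continuous_const.mul continuous_id)).sub continuous_const))).div_const 2
    have l1 := lln hF (φ := obr h (cc H c h)) (K := Real.pi * |(h : ℝ)|) (by positivity) (obr_lip h _) (obr_le hz) hB hB1 hB4 hBm hJB hBi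
      hT (st := st) (tf := tf) htfc htfp hδt (hall _ hcr (obr_le hz) fun k i hi hsti hh l hl => (hmeans h k i hi hsti hh l hl).1)
    have l2 := lln hF (φ := obi h (cc H c h)) (K := Real.pi * |(h : ℝ)|) (by positivity) (obi_lip h _) (obi_le hz) hB hB1 hB4 hBm hJB hBi
      hT (st := st) (tf := tf) htfc htfp hδt (hall _ hci (obi_le hz) fun k i hi hsti hh l hl => (hmeans h k i hi hsti hh l hl).2)
    filter_upwards [l1, l2, hgood] with w hw1 hw2 hw3
    exact ob_lim (hw1 hw3) (hw2 hw3)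
  have hllall : ∀ᵐ w ∂(volume.restrict (Ico (0 : ℝ) 1)), ∀ h : ℤ,
      Tendsto (fun N : ℕ => (∑ n ∈ Finset.range N, e (h * uu n₀ s n (pt T m w))) / (N : ℂ)) atTop (𝓝 (cc H c h)) :=
    ae_all_iff.2 hll
  -- the masses along a path
  obtain ⟨D, hD, hpath⟩ := em_path hF hgc hg0 hK₀ hlipl hB0 hB hT (st := st) hI
  refine lower_aeE T m hms (nn B) (nn_tendsto hB1) hnmono ?_ hlogβ hCs (DD_nonneg hd) hlenT _ ?_
  · intro ε hε
    obtain ⟨C, hC0, hC⟩ := blk_small hB1 hB4 (show 0 < ε / 2 by positivity)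
    have h1 : Tendsto (fun k => (nn B k : ℝ)) atTop atTop := tendsto_natCast_atTop_atTop.comp (nn_tendsto hB1)
    filter_upwards [h1.eventually_ge_atTop (2 * C / ε)] with k hk
    have h2 : ((nn B (k + 1) : ℕ) : ℝ) = nn B k + B k := by
      show ((nn B k + B k : ℕ) : ℝ) = _
      push_cast
      ring
    rw [h2]
    have h3 := hC k
    rw [div_le_iff₀ hε] at hk
    linarith
  · filter_upwards [hllall, hgood, hIco] with w hw hwg hw1
    have hXc := pt_mem hms.zero hms.nn hms.sum 0 hw1.1 hw1.2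
    have h2 := idx_lt (T := T) (m := m) 0 w
    have h4 := hT.mem 0 (idx T m 0 w) h2.le
    have h5 := hT.mem 0 (idx T m 0 w + 1) h2
    have hXab : pt T m w ∈ Ioo a b := by
      have h6 := ha'b' h4
      have h7 := ha'b' h5
      exact ⟨by linarith [hXc.1, h6.1], by linarith [hXc.2, h7.2]⟩
    refine ⟨⟨hXab, fun h => ?_⟩, ?_⟩
    · refine shift_mean (F := fun n => e (h * (pt T m w ^ (n + 1) + s n))) (C := 1) (fun n => (norm_e _).le) n₀ ?_
      refine (hw h).congr fun N => ?_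
      congr 1
      refine Finset.sum_congr rfl fun n _ => ?_
      unfold uu
      rw [one_mul]
    · intro I' hI'
      obtain ⟨D', hD'⟩ := hpath w hw1 hwg
      have hlaw : HasLaw (fun n => uu n₀ s n (pt T m w)) g := Pool.Agent.Helper59.MF.law_of_weyl hd _ fun h _ => by
        refine (hw h).congr fun N => ?_
        congr 1
        exact Finset.sum_congr rfl fun n _ => (e_eq _).symm
      have h6 := hlaw (fun t => Real.log (g t)) (hgc.log fun t => (hg0 t).ne') fun t => by rw [hd.per]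
      have h7 : (∫ t in (0 : ℝ)..1, Real.log (g t) * g t) = DD g := by
        unfold DD
        exact intervalIntegral.integral_congr fun t _ => mul_comm _ _
      rw [h7] at h6
      have hnt := nn_tendsto hB1
      have h8 := h6.comp hnt
      have h9 : Tendsto (fun k => (∑ i ∈ Finset.range k, D * ((J i : ℝ) + 1)) / (nn B k : ℕ)) atTop (𝓝 0) := by
        refine cesaro_nn hB1 (fun k => by positivity) ?_
        have h10 : Tendsto (fun k => D * ((J k : ℝ) / B k) + D * (1 / (B k : ℝ))) atTop (𝓝 (D * 0 + D * 0)) := by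
          refine (hJB.const_mul D).add (Tendsto.const_mul D ?_)
          exact (tendsto_natCast_atTop_atTop.comp hBi).const_div_atTop 1
        rw [mul_zero, add_zero] at h10
        refine h10.congr fun k => ?_
        ring
      have h10 : Tendsto (fun k => D' / ((nn B k : ℕ) : ℝ)) atTop (𝓝 0) := (tendsto_natCast_atTop_atTop.comp hnt).const_div_atTop D'
      have h11 := (h10.add h8).add h9
      simp only [zero_add, add_zero] at h11
      filter_upwards [h11.eventually_lt_const hI', (tendsto_natCast_atTop_atTop.comp hnt).eventually_gt_atTop (0 : ℝ)] with k hk hk0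
      refine (hD' k).trans (mul_le_mul_of_nonneg_left (Real.exp_le_exp.2 ?_) (len_pos T k (idx_lt k w)).le)
      simp only [Function.comp_apply] at hk hk0
      rw [← add_div, ← add_div, div_lt_iff₀ hk0] at hk
      have h12 : S (fun t => Real.log (g t)) (uu n₀ s) (nn B k) (pt T m w) =
          ∑ n ∈ Finset.range (nn B k), Real.log (g (uu n₀ s n (pt T m w))) := rfl
      rw [h12]
      linarith

end Pool.Agent.GE
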