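import Pool.Agent.Helper87.GE.Good
import Pool.Agent.Helper59.MF.Law

/-!
# GE: the density `g`, the observables
-/

set_option autoImplicit false
open MeasureTheory Set Filter Topology
open Pool.Agent.Helper82.FK (e norm_e)
open Pool.Agent.Helper18.GP (gp nm)
open Pool.Agent.Helper59.MF (Dens cc HasLaw DD)

namespace Pool.Agent.GE

theorem e_eq (x : ℝ) : Pool.Agent.Helper59.RE.e x = e x := by
  unfold Pool.Agent.Helper59.RE.e e
  congr 1
  push_cast
  ring

variable {H : ℕ} {c : ℤ → ℂ} {g : ℝ → ℝ}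

theorem dens (hg : ∀ t, gp H c t = g t) (hc : c 0 = 1) (hg0 : ∀ t, 0 < g t) : Dens H c g := by
  refine ⟨fun t => ?_, hc, hg0⟩
  rw [← hg t]
  unfold gp
  exact Finset.sum_congr rfl fun k _ => by rw [e_eq]

theorem ce_eq (H : ℕ) (c : ℤ → ℂ) (h : ℤ) (j : ℕ) : ce H c h j j 0 = cc H c h := by
  unfold ce cc
  rw [if_pos rfl, zero_sub]

theorem norm_cc (hd : Dens H c g) (h : ℤ) : ‖cc H c h‖ ≤ 1 := by
  rw [← hd.coeff h]
  refine (intervalIntegral.norm_integral_le_integral_norm zero_le_one).trans ?_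
  have h0 := hd.coeff 0
  have h1 : (∫ t in (0 : ℝ)..1, ‖Pool.Agent.Helper59.RE.e (h * t) * (g t : ℂ)‖) = ∫ t in (0 : ℝ)..1, g t := by
    refine intervalIntegral.integral_congr fun t _ => ?_
    rw [norm_mul, e_eq, norm_e, one_mul, Complex.norm_real, Real.norm_eq_abs, abs_of_pos (hd.pos t)]
  rw [h1]
  have h2 : (∫ t in (0 : ℝ)..1, Pool.Agent.Helper59.RE.e ((0 : ℤ) * t) * (g t : ℂ)) = ((∫ t in (0 : ℝ)..1, g t : ℝ) : ℂ) := by
    rw [← intervalIntegral.integral_ofReal]
    refine intervalIntegral.integral_congr fun t _ => ?_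
    rw [Int.cast_zero, zero_mul, e_eq]
    have : e 0 = 1 := by unfold e; simp
    rw [this, one_mul]
  rw [h2] at h0
  have h3 : cc H c 0 = 1 := by
    unfold cc
    rw [if_pos (by rw [neg_zero, Finset.mem_Icc]; constructor <;> omega), neg_zero, hd.zero]
  rw [h3] at h0
  have h4 : (∫ t in (0 : ℝ)..1, g t) = 1 := by exact_mod_cast h0
  exact h4.le

theorem g_le_nm (hg : ∀ t, gp H c t = g t) (t : ℝ) : g t ≤ nm H c := by
  have h1 : g t ≤ ‖(g t : ℂ)‖ := by
    rw [Complex.norm_real]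
    exact le_abs_self _
  refine h1.trans ?_
  rw [← hg t]
  unfold gp nm
  refine (norm_sum_le _ _).trans (Finset.sum_le_sum fun k _ => ?_)
  rw [norm_mul, norm_e, mul_one]

theorem one_le_nm (hc : c 0 = 1) : 1 ≤ nm H c := by
  have h1 : ‖c 0‖ ≤ nm H c := Finset.single_le_sum (f := fun k => ‖c k‖) (fun k _ => norm_nonneg _)
    (Finset.mem_Icc.2 ⟨by omega, by omega⟩)
  rw [hc, norm_one] at h1
  exact h1

/-- the logarithm of the density is bounded and Lipschitz -/
theorem log_lip (hd : Dens H c g) : ∃ K B0 : ℝ, 0 ≤ K ∧ (∀ s t, |Real.log (g s) - Real.log (g t)| ≤ K * |s - t|) ∧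
    ∀ t, |Real.log (g t)| ≤ B0 := by
  obtain ⟨M, K, hM, hK, hb, hl⟩ := hd.bounds
  refine ⟨K, Real.log M, hK, fun s t => ?_, fun t => ?_⟩
  · have h1 : ∀ s t, Real.log (g s) - Real.log (g t) ≤ K * |s - t| := by
      intro s t
      have h2 := Real.log_le_log (hd.pos s) (hl s t)
      rw [Real.log_mul (Real.exp_pos _).ne' (hd.pos t).ne', Real.log_exp] at h2
      linarith
    rw [abs_le]
    have h3 := h1 t s
    rw [abs_sub_comm] at h3
    exact ⟨by linarith, h1 s t⟩
  · have hM0 : 0 < M := by linarith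
    obtain ⟨h1, h2⟩ := hb t
    rw [abs_le]
    constructor
    · have := Real.log_le_log (by positivity) h1
      rw [Real.log_inv] at this
      exact this
    · exact Real.log_le_log (hd.pos t) h2

theorem DD_nonneg (hd : Dens H c g) : 0 ≤ DD g := by
  have hgc := hd.cont
  have h0 := hd.coeff 0
  have h2 : (∫ t in (0 : ℝ)..1, Pool.Agent.Helper59.RE.e ((0 : ℤ) * t) * (g t : ℂ)) = ((∫ t in (0 : ℝ)..1, g t : ℝ) : ℂ) := by
    rw [← intervalIntegral.integral_ofReal]
    refine intervalIntegral.integral_congr fun t _ => ?_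
    rw [Int.cast_zero, zero_mul, e_eq]
    have : e 0 = 1 := by unfold e; simp
    rw [this, one_mul]
  rw [h2] at h0
  have h3 : cc H c 0 = 1 := by
    unfold cc
    rw [if_pos (by rw [neg_zero, Finset.mem_Icc]; constructor <;> omega), neg_zero, hd.zero]
  rw [h3] at h0
  have h4 : (∫ t in (0 : ℝ)..1, g t) = 1 := by exact_mod_cast h0
  unfold DD
  have h5 : (0 : ℝ) = ∫ t in (0 : ℝ)..1, (g t - 1) := by
    rw [intervalIntegral.integral_sub (hgc.intervalIntegrable _ _) intervalIntegrable_const, h4]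
    simp
  refine h5.le.trans ?_
  have i1 : Continuous fun t => g t - 1 := hgc.sub continuous_const
  have i2 : Continuous fun t => g t * Real.log (g t) := hgc.mul (hgc.log fun t => (hd.pos t).ne')
  refine intervalIntegral.integral_mono_on zero_le_one (i1.intervalIntegrable _ _) (i2.intervalIntegrable _ _) fun t _ => ?_
  have h6 := hd.pos t
  have h7 := Real.one_sub_inv_le_log_of_pos h6
  have h8 := mul_le_mul_of_nonneg_left h7 h6.le
  have h9 : g t * (1 - (g t)⁻¹) = g t - 1 := by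
    rw [mul_sub, mul_inv_cancel₀ h6.ne', mul_one]
  linarith

/-! ### observables -/

/-- real part of `e (h t) - z`, halved -/
noncomputable def obr (h : ℤ) (z : ℂ) (t : ℝ) : ℝ := (e (h * t) - z).re / 2

/-- imaginary part -/
noncomputable def obi (h : ℤ) (z : ℂ) (t : ℝ) : ℝ := (e (h * t) - z).im / 2

theorem ob_norm {h : ℤ} {z : ℂ} (hz : ‖z‖ ≤ 1) (t : ℝ) : ‖e (h * t) - z‖ ≤ 2 := by
  refine (norm_sub_le _ _).trans ?_
  rw [norm_e]
  linarith

theorem obr_le {h : ℤ} {z : ℂ} (hz : ‖z‖ ≤ 1) (t : ℝ) : |obr h z t| ≤ 1 := by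
  unfold obr
  rw [abs_div, abs_two, div_le_one two_pos]
  exact (Complex.abs_re_le_norm _).trans (ob_norm hz t)

theorem obi_le {h : ℤ} {z : ℂ} (hz : ‖z‖ ≤ 1) (t : ℝ) : |obi h z t| ≤ 1 := by
  unfold obi
  rw [abs_div, abs_two, div_le_one two_pos]
  exact (Complex.abs_im_le_norm _).trans (ob_norm hz t)

theorem e_lip (h : ℤ) (s t : ℝ) : ‖e (h * s) - e (h * t)‖ ≤ (2 * Real.pi * |(h : ℝ)|) * |s - t| := by
  refine (Pool.Agent.Helper87.GP.e_sub_le _ _).trans (le_of_eq ?_)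
  rw [← mul_sub, abs_mul]
  ring

theorem obr_lip (h : ℤ) (z : ℂ) (s t : ℝ) : |obr h z s - obr h z t| ≤ (Real.pi * |(h : ℝ)|) * |s - t| := by
  unfold obr
  rw [← sub_div, ← Complex.sub_re, sub_sub_sub_cancel_right, abs_div, abs_two, div_le_iff₀ two_pos]
  refine (Complex.abs_re_le_norm _).trans ((e_lip h s t).trans (le_of_eq (by ring)))

theorem obi_lip (h : ℤ) (z : ℂ) (s t : ℝ) : |obi h z s - obi h z t| ≤ (Real.pi * |(h : ℝ)|) * |s - t| := by
  unfold obi
  rw [← sub_div, ← Complex.sub_im, sub_sub_sub_cancel_right, abs_div, abs_two, div_le_iff₀ two_pos]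
  refine (Complex.abs_im_le_norm _).trans ((e_lip h s t).trans (le_of_eq (by ring)))

/-- from the observables to the exponential sums -/
theorem ob_lim {h : ℤ} {z : ℂ} {U : ℕ → ℝ}
    (h1 : Tendsto (fun N : ℕ => (∑ n ∈ Finset.range N, obr h z (U n)) / (N : ℝ)) atTop (𝓝 0))
    (h2 : Tendsto (fun N : ℕ => (∑ n ∈ Finset.range N, obi h z (U n)) / (N : ℝ)) atTop (𝓝 0)) :
    Tendsto (fun N : ℕ => (∑ n ∈ Finset.range N, e (h * U n)) / (N : ℂ)) atTop (𝓝 z) := by
  have h3 : Tendsto (fun N : ℕ => 2 * (((∑ n ∈ Finset.range N, obr h z (U n)) / (N : ℝ) : ℝ) : ℂ) +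
      2 * (((∑ n ∈ Finset.range N, obi h z (U n)) / (N : ℝ) : ℝ) : ℂ) * Complex.I + z) atTop
      (𝓝 (2 * ((0 : ℝ) : ℂ) + 2 * ((0 : ℝ) : ℂ) * Complex.I + z)) :=
    ((((Complex.continuous_ofReal.tendsto 0).comp h1).const_mul 2).add
      ((((Complex.continuous_ofReal.tendsto 0).comp h2).const_mul 2).mul_const Complex.I)).add_const z
  have h4 : 2 * ((0 : ℝ) : ℂ) + 2 * ((0 : ℝ) : ℂ) * Complex.I + z = z := by simp
  rw [h4] at h3
  refine h3.congr' ?_
  filter_upwards [eventually_gt_atTop 0] with N hN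
  have hN' : (N : ℂ) ≠ 0 := by exact_mod_cast hN.ne'
  have h5 : ∀ n, (2 : ℂ) * ((obr h z (U n) : ℝ) : ℂ) + 2 * ((obi h z (U n) : ℝ) : ℂ) * Complex.I = e (h * U n) - z := by
    intro n
    unfold obr obi
    push_cast
    have := Complex.re_add_im (e (h * U n) - z)
    linear_combination this
  have h6 : ∑ n ∈ Finset.range N, ((2 : ℂ) * ((obr h z (U n) : ℝ) : ℂ) + 2 * ((obi h z (U n) : ℝ) : ℂ) * Complex.I) =
      ∑ n ∈ Finset.range N, e (h * U n) - N * z := by
    rw [Finset.sum_congr rfl fun n _ => h5 n, Finset.sum_sub_distrib]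
    simp
  rw [Finset.sum_add_distrib, ← Finset.mul_sum, ← Finset.sum_mul, ← Finset.mul_sum] at h6
  push_cast
  field_simp
  linear_combination h6

end Pool.Agent.GE
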