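import Pool.Agent.Helper59.MF.FinL

/-!
# GE: the law in terms of intervals
-/

set_option autoImplicit false

namespace Pool.Agent.GE

open Finset MeasureTheory Filter Topology
open Pool.Agent.Helper59.RE (e norm_e e_add conj_e continuous_e e_zero)
open Pool.Agent.Helper59.MF

variable {H : ℕ} {G : ℤ → ℂ} {g : ℝ → ℝ}

/-- complex test functions -/
theorem law_complex (hg : Dens H G g) {u : ℕ → ℝ} (hu : HasLaw u g) {F : ℝ → ℂ} (hF : Continuous F) (hp : ∀ x, F (x + 1) = F x) :
    Tendsto (fun N : ℕ => (∑ n ∈ range N, F (u n)) / (N : ℂ)) atTop (𝓝 (∫ t in (0 : ℝ)..1, F t * g t)) := by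
  have h1 := hu (fun x => (F x).re) (Complex.continuous_re.comp hF) fun x => by rw [hp]
  have h2 := hu (fun x => (F x).im) (Complex.continuous_im.comp hF) fun x => by rw [hp]
  have h3 := ((Complex.continuous_ofReal.tendsto _).comp h1).add
    (((Complex.continuous_ofReal.tendsto _).comp h2).mul_const Complex.I)
  have hc : Continuous fun t => F t * (g t : ℂ) := hF.mul (Complex.continuous_ofReal.comp hg.cont)
  have e1 : (∫ t in (0 : ℝ)..1, F t * (g t : ℂ)).re = ∫ t in (0 : ℝ)..1, (F t).re * g t := by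
    have h5 := Complex.reCLM.intervalIntegral_comp_comm (hc.intervalIntegrable (μ := volume) 0 1)
    rw [Complex.reCLM_apply] at h5
    rw [← h5]
    refine intervalIntegral.integral_congr fun t _ => ?_
    simp
  have e2 : (∫ t in (0 : ℝ)..1, F t * (g t : ℂ)).im = ∫ t in (0 : ℝ)..1, (F t).im * g t := by
    have h5 := Complex.imCLM.intervalIntegral_comp_comm (hc.intervalIntegrable (μ := volume) 0 1)
    rw [Complex.imCLM_apply] at h5
    rw [← h5]
    refine intervalIntegral.integral_congr fun t _ => ?_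
    simp
  have e3 : (∫ t in (0 : ℝ)..1, F t * (g t : ℂ)) = ((∫ t in (0 : ℝ)..1, (F t).re * g t : ℝ) : ℂ) +
      ((∫ t in (0 : ℝ)..1, (F t).im * g t : ℝ) : ℂ) * Complex.I := by
    rw [← e1, ← e2, Complex.re_add_im]
  rw [e3]
  refine h3.congr fun N => ?_
  simp only [Function.comp_apply]
  push_cast
  rw [div_mul_eq_mul_div, ← add_div, Finset.sum_mul, ← Finset.sum_add_distrib]
  congr 1
  exact sum_congr rfl fun n _ => Complex.re_add_im _

theorem law_box (hg : Dens H G g) {u : ℕ → ℝ} (hu : HasLaw u g) {α β : ℝ} (hα : 0 ≤ α) (hαβ : α ≤ β) (hβ : β ≤ 1) :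
    Tendsto (fun N : ℕ => (((range N).filter (fun n => α ≤ Int.fract (u n) ∧ Int.fract (u n) < β)).card : ℝ) / N) atTop
      (𝓝 (∫ x in α..β, g x)) := by
  classical
  have h1 := Pool.Agent.Helper59.WD.weyl (d := Fin 1) (fun n _ => Phi g (u n)) (fun h hh => by
    have h2 := law_complex hg hu (F := fun x => e (h 0 * Phi g x)) (continuous_e.comp (continuous_const.mul (Phi_cont hg)))
      (fun x => by
        rw [Phi_per hg, mul_add, mul_one, e_add]
        rw [Pool.Agent.Helper59.RE.e_int (h 0), mul_one])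
    have h0 : h 0 ≠ 0 := by
      intro h0
      refine hh (funext fun i => ?_)
      rw [Subsingleton.elim i 0, h0]
      rfl
    rw [int_Phi hg, if_neg h0] at h2
    refine h2.congr fun N => ?_
    congr 1
    refine sum_congr rfl fun n _ => ?_
    simp)
    (fun _ => Phi g α) (fun _ => Phi g β)
    (fun _ => by rw [← Phi_zero g]; exact (Phi_mono hg).monotone hα)
    (fun _ => (Phi_mono hg).monotone hαβ)
    (fun _ => by rw [← Phi_one hg]; exact (Phi_mono hg).monotone hβ)
  simp only [Phi_fract hg, (Phi_mono hg).le_iff_le, (Phi_mono hg).lt_iff_lt, Phi_sub hg, Finset.univ_unique, Finset.prod_const,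
    Finset.card_singleton, pow_one] at h1
  refine h1.congr fun N => ?_
  congr 3
  ext n
  simp

end Pool.Agent.GE
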