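import Pool.Agent.Helper87.GE.Base
import Pool.Agent.Helper34.GE.E4

/-!
# GE: block sequences; the means on a good cell
-/

set_option autoImplicit false
open MeasureTheory Set Filter Topology
open Pool.Agent.Helper82.FK (e norm_e continuous_e)
open Pool.Agent.Helper18.GP (gp nm)
open Pool.Agent.Helper59.MF (Dens cc HasLaw DD)

namespace Pool.Agent.GE

theorem blocks (Θ : ℕ → ℕ) (Jf : ℕ → ℕ) (hJm : Monotone Jf) (hJr : ∀ r, r + 1 ≤ Jf r) :
    ∃ R : ℕ → ℕ, R 0 = 0 ∧ Monotone R ∧ Tendsto R atTop atTop ∧ (∀ k, R k ≠ 0 → Θ (R k) ≤ k) ∧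
      ∃ J L B : ℕ → ℕ, (∀ k, B k = J k + L k) ∧ (∀ k, R k ≠ 0 → J k = Jf (R k) ∧ L k = Jf (R k) ^ 2) ∧ (∀ k, 1 ≤ B k) ∧
        (∀ k, B k ^ 4 ≤ k + 1) ∧ Monotone B ∧ Tendsto B atTop atTop ∧ Tendsto (fun k => (J k : ℝ) / B k) atTop (𝓝 0) := by
  obtain ⟨R, hR0, hRm, hRi, hRΘ⟩ := exists_stage (fun r => Θ r + (Jf r + Jf r ^ 2) ^ 4)
  have hΘ : ∀ k, R k ≠ 0 → Θ (R k) + (Jf (R k) + Jf (R k) ^ 2) ^ 4 ≤ k := fun k hk => (hRΘ k).resolve_left hk
  refine ⟨R, hR0, hRm, hRi, fun k hk => (Nat.le_add_right _ _).trans (hΘ k hk), fun k => if R k = 0 then 1 else Jf (R k),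
    fun k => if R k = 0 then 0 else Jf (R k) ^ 2, fun k => (if R k = 0 then 1 else Jf (R k)) + (if R k = 0 then 0 else Jf (R k) ^ 2),
    fun k => rfl, fun k hk => ⟨if_neg hk, if_neg hk⟩, ?_, ?_, ?_, ?_, ?_⟩
  · intro k
    have := hJr (R k)
    show 1 ≤ (if R k = 0 then 1 else Jf (R k)) + (if R k = 0 then 0 else Jf (R k) ^ 2)
    split_ifs <;> omega
  · intro k
    show ((if R k = 0 then 1 else Jf (R k)) + (if R k = 0 then 0 else Jf (R k) ^ 2)) ^ 4 ≤ k + 1
    by_cases h : R k = 0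
    · simp only [if_pos h]
      omega
    · simp only [if_neg h]
      have := hΘ k h
      omega
  · intro k k' hkk'
    have hRR := hRm hkk'
    show (if R k = 0 then 1 else Jf (R k)) + (if R k = 0 then 0 else Jf (R k) ^ 2) ≤
      (if R k' = 0 then 1 else Jf (R k')) + (if R k' = 0 then 0 else Jf (R k') ^ 2)
    by_cases h : R k = 0
    · have := hJr (R k')
      simp only [if_pos h]
      split_ifs <;> omega
    · have h' : R k' ≠ 0 := by omega
      simp only [if_neg h, if_neg h']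
      have h1 := hJm hRR
      have h2 := Nat.pow_le_pow_left h1 2
      omega
  · refine tendsto_atTop_mono (fun k => ?_) hRi
    have := hJr (R k)
    split_ifs <;> omega
  · have h1 : Tendsto (fun k => 1 / ((R k : ℝ) + 1)) atTop (𝓝 0) := by
      have h2 : Tendsto (fun k => (R k : ℝ) + 1) atTop atTop :=
        tendsto_atTop_add_const_right _ _ (tendsto_natCast_atTop_atTop.comp hRi)
      exact h2.const_div_atTop 1
    refine squeeze_zero' (Eventually.of_forall fun k => by positivity) ?_ h1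
    filter_upwards [hRi.eventually_ge_atTop 1] with k hk
    have h2 : R k ≠ 0 := by omega
    simp only [if_neg h2]
    have h3 : (R k : ℝ) + 1 ≤ Jf (R k) := by exact_mod_cast hJr (R k)
    have h4 : (0 : ℝ) < Jf (R k) := by
      have : (0 : ℝ) ≤ R k := Nat.cast_nonneg _
      linarith
    push_cast
    rw [div_le_div_iff₀ (by positivity) (by positivity)]
    nlinarith

/-- the family of functions -/
noncomputable def uu (n₀ : ℕ) (s : ℕ → ℝ) (n : ℕ) (x : ℝ) : ℝ := 1 * x ^ (n + n₀ + 1) + s (n + n₀)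

theorem cell_facts {a b : ℝ} {H r J L n0 : ℕ} {c : ℤ → ℂ} {g : ℝ → ℝ} {ε ρ x0 : ℝ}
    (hloc : ∀ n ≥ n0, ∀ p q : ℝ, a ≤ p → p < q → q ≤ b →
      x0 - ρ < p → q < x0 + ρ → 1 ≤ q ^ n - p ^ n → q ^ n - p ^ n ≤ 2 → ∀ s : ℕ → ℝ,
      |(∫ x in p..q, ∏ i ∈ Finset.range L, g (x ^ (n + J + i) + s i)) - (q - p)| ≤ 3 * ε * (q - p) ∧
      ∀ h : ℤ, |h| ≤ r → ∀ j < L,
        ‖(∫ x in p..q, e (h * (x ^ (n + J + j) + s j)) * ((∏ i ∈ Finset.range L, g (x ^ (n + J + i) + s i) : ℝ) : ℂ)) -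
          ce H c h j j 0 * ((q - p : ℝ) : ℂ)‖ ≤ 3 * ε * (q - p))
    {n₀ m : ℕ} (hn : n0 ≤ m + n₀ + 1) (s : ℕ → ℝ) {p q : ℝ} (hp : a ≤ p) (hpq : p < q) (hq : q ≤ b) (hx1 : x0 - ρ < p)
    (hx2 : q < x0 + ρ) (hinc1 : 1 ≤ uu n₀ s m q - uu n₀ s m p) (hinc2 : uu n₀ s m q - uu n₀ s m p ≤ 2) :
    |(∫ x in p..q, ∏ i ∈ Finset.range L, g (uu n₀ s (m + J + i) x)) - (q - p)| ≤ 3 * ε * (q - p) ∧
      ∀ h : ℤ, |h| ≤ r → ∀ j < L,
        ‖(∫ x in p..q, e (h * uu n₀ s (m + J + j) x) * ((∏ i ∈ Finset.range L, g (uu n₀ s (m + J + i) x) : ℝ) : ℂ)) -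
          cc H c h * ((q - p : ℝ) : ℂ)‖ ≤ 3 * ε * (q - p) := by
  have e1 : uu n₀ s m q - uu n₀ s m p = q ^ (m + n₀ + 1) - p ^ (m + n₀ + 1) := by
    unfold uu
    ring
  rw [e1] at hinc1 hinc2
  obtain ⟨h1, h2⟩ := hloc (m + n₀ + 1) hn p q hp hpq hq hx1 hx2 hinc1 hinc2 (fun i => s (m + J + i + n₀))
  have e2 : ∀ (i : ℕ) (x : ℝ), x ^ (m + n₀ + 1 + J + i) + s (m + J + i + n₀) = uu n₀ s (m + J + i) x := by
    intro i x
    unfold uu
    rw [one_mul, show m + n₀ + 1 + J + i = m + J + i + n₀ + 1 by ring]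
  simp only [e2] at h1 h2
  refine ⟨h1, fun h hh j hj => ?_⟩
  have h3 := h2 h hh j hj
  rw [ce_eq] at h3
  exact h3

theorem ob_mean {p q ε : ℝ} (hpq : p < q) {F U : ℝ → ℝ} (hF : ContinuousOn F (Icc p q)) (hU : ContinuousOn U (Icc p q))
    {h : ℤ} {z : ℂ} (hz : ‖z‖ ≤ 1) (hε : 0 ≤ ε) (hε6 : 6 * ε ≤ 1)
    (h1 : |(∫ x in p..q, F x) - (q - p)| ≤ 3 * ε * (q - p))
    (h2 : ‖(∫ x in p..q, e (h * U x) * (F x : ℂ)) - z * ((q - p : ℝ) : ℂ)‖ ≤ 3 * ε * (q - p)) :
    (q - p) / 2 ≤ (∫ x in p..q, F x) ∧ |∫ x in p..q, obr h z (U x) * F x| ≤ 6 * ε * ∫ x in p..q, F x ∧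
      |∫ x in p..q, obi h z (U x) * F x| ≤ 6 * ε * ∫ x in p..q, F x := by
  have hu : uIcc p q = Icc p q := uIcc_of_le hpq.le
  have hd : 0 < q - p := by linarith
  have hlow : (q - p) / 2 ≤ ∫ x in p..q, F x := by
    have h3 := (abs_le.1 h1).1
    nlinarith
  have hec : ContinuousOn (fun x => e (h * U x)) (Icc p q) := continuous_e.comp_continuousOn (continuousOn_const.mul hU)
  have hFc : ContinuousOn (fun x => (F x : ℂ)) (Icc p q) := Complex.continuous_ofReal.comp_continuousOn hF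
  have i1 : IntervalIntegrable (fun x => e (h * U x) * (F x : ℂ)) volume p q := by
    refine ContinuousOn.intervalIntegrable ?_
    rw [hu]
    exact hec.mul hFc
  have i2 : IntervalIntegrable (fun x => z * (F x : ℂ)) volume p q := by
    refine ContinuousOn.intervalIntegrable ?_
    rw [hu]
    exact continuousOn_const.mul hFc
  have h3 : ‖∫ x in p..q, (e (h * U x) - z) * (F x : ℂ)‖ ≤ 6 * ε * (q - p) := by
    have e1 : ∫ x in p..q, (e (h * U x) - z) * (F x : ℂ) =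
        ((∫ x in p..q, e (h * U x) * (F x : ℂ)) - z * ((q - p : ℝ) : ℂ)) - z * (((∫ x in p..q, F x) - (q - p) : ℝ) : ℂ) := by
      have e2 : ∫ x in p..q, (e (h * U x) - z) * (F x : ℂ) = (∫ x in p..q, e (h * U x) * (F x : ℂ)) - ∫ x in p..q, z * (F x : ℂ) := by
        rw [← intervalIntegral.integral_sub i1 i2]
        refine intervalIntegral.integral_congr fun x _ => ?_
        ring
      rw [e2, intervalIntegral.integral_const_mul, intervalIntegral.integral_ofReal]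
      push_cast
      ring
    rw [e1]
    refine (norm_sub_le _ _).trans ?_
    have h4 : ‖z * (((∫ x in p..q, F x) - (q - p) : ℝ) : ℂ)‖ ≤ 3 * ε * (q - p) := by
      rw [norm_mul, Complex.norm_real, Real.norm_eq_abs]
      calc ‖z‖ * |(∫ x in p..q, F x) - (q - p)| ≤ 1 * (3 * ε * (q - p)) := mul_le_mul hz h1 (abs_nonneg _) zero_le_one
        _ = _ := one_mul _
    linarith
  have i3 : IntervalIntegrable (fun x => (e (h * U x) - z) * (F x : ℂ)) volume p q := by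
    refine ContinuousOn.intervalIntegrable ?_
    rw [hu]
    exact (hec.sub continuousOn_const).mul hFc
  have hre : (∫ x in p..q, obr h z (U x) * F x) = (∫ x in p..q, (e (h * U x) - z) * (F x : ℂ)).re / 2 := by
    have e1 : (∫ x in p..q, (e (h * U x) - z) * (F x : ℂ)).re = ∫ x in p..q, ((e (h * U x) - z) * (F x : ℂ)).re := by
      have := (Complex.reCLM.intervalIntegral_comp_comm i3)
      simpa using this.symm
    rw [e1, ← intervalIntegral.integral_div]
    refine intervalIntegral.integral_congr fun x _ => ?_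
    unfold obr
    rw [Complex.re_mul_ofReal]
    ring
  have him : (∫ x in p..q, obi h z (U x) * F x) = (∫ x in p..q, (e (h * U x) - z) * (F x : ℂ)).im / 2 := by
    have e1 : (∫ x in p..q, (e (h * U x) - z) * (F x : ℂ)).im = ∫ x in p..q, ((e (h * U x) - z) * (F x : ℂ)).im := by
      have := (Complex.imCLM.intervalIntegral_comp_comm i3)
      simpa using this.symm
    rw [e1, ← intervalIntegral.integral_div]
    refine intervalIntegral.integral_congr fun x _ => ?_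
    unfold obi
    rw [Complex.im_mul_ofReal]
    ring
  have hfin : 3 * ε * (q - p) ≤ 6 * ε * ∫ x in p..q, F x := by nlinarith
  refine ⟨hlow, ?_, ?_⟩
  · rw [hre, abs_div, abs_two, div_le_iff₀ two_pos]
    refine (Complex.abs_re_le_norm _).trans (h3.trans ?_)
    linarith
  · rw [him, abs_div, abs_two, div_le_iff₀ two_pos]
    refine (Complex.abs_im_le_norm _).trans (h3.trans ?_)
    linarith

end Pool.Agent.GE
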