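import Pool.Agent.Helper87.GP.LowerFin
import Pool.Agent.Helper18.KD.LowerTree
import Pool.Agent.Helper18.GP.Osc2

/-!
# GE (exact laws): definitions

`x ↦ x^(n+1) + s n` on `(a, b)`, `1 < a < b`; `g > 0` a trigonometric polynomial of degree at most `H`, mean one, close
to `1`. The set of the `x` whose sequence has the law `g(t) dt` has the dimension `1 - (∫ g log g) / log b`.
-/

set_option autoImplicit false
open MeasureTheory Set Filter Topology
open Pool.Agent.Helper78.KD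
open Pool.Agent.Helper18.KD (par idx pt)
open Pool.Agent.Helper82.FK (e)
open Pool.Agent.Helper18.GP (gp nm)
open Pool.Agent.Helper87.GP (Z fz cut)

namespace Pool.Agent.GE

/-- sequences with at most one coefficient larger than `H` -/
def Ds (H H' : ℝ) : Set (ℕ → ℝ) := {c | 1 ≤ |c 0| ∧ (∀ j, |c j| ≤ H') ∧ ∀ i j, i ≠ j → |c i| ≤ H ∨ |c j| ≤ H}

/-- bound for the orders of the zeros -/
noncomputable def KE (a H : ℝ) : ℕ := ⌊Real.log (5 * H / (1 - (√a)⁻¹) ^ 2) / Real.log (√a)⌋₊ + 1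

/-- the exponent -/
noncomputable def kE (a H : ℝ) : ℝ := 1 / (4 * ((KE a H : ℝ) + 1))

/-- coefficients of the factor number `i`; the factor number `j` carries the extra character `e (h ·)` -/
noncomputable def ce (H : ℕ) (c : ℤ → ℂ) (h : ℤ) (j i : ℕ) (k : ℤ) : ℂ :=
  if i = j then (if k - h ∈ Finset.Icc (-(H : ℤ)) H then c (k - h) else 0)
  else (if k ∈ Finset.Icc (-(H : ℤ)) H then c k else 0)

/-- sum over the strings whose last nonzero entry has number `t` -/
noncomputable def QE (a : ℝ) (H Hb : ℕ) (c : ℤ → ℂ) (h : ℤ) (j J t : ℕ) (x : ℝ) : ℝ :=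
  ∑ b ∈ Z Hb t, (∏ i : Fin (t + 1), ‖ce H c h j i (b i)‖) * cut ((a ^ J)⁻¹) (fz b x)

/-- `x` is good -/
def Crit (a : ℝ) (H r : ℕ) (c : ℤ → ℂ) (J L : ℕ) (ε x : ℝ) : Prop :=
  ∀ h : ℤ, |h| ≤ r → ∀ j < L, ∑ t ∈ Finset.range L, QE a H (H + r) c h j J t x ≤ ε

/-- block boundaries -/
def nn (B : ℕ → ℕ) : ℕ → ℕ
  | 0 => 0
  | k + 1 => nn B k + B k

/-- integral over a cell -/
noncomputable def ic (T : Tr) (k i : ℕ) (f : ℝ → ℝ) : ℝ := ∫ x in (T.t k i)..(T.t k (i + 1)), f x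

/-- masses: the mass of a cell is distributed to its children in the proportions of the integrals of `tf k i` -/
noncomputable def em (T : Tr) (tf : ℕ → ℕ → ℝ → ℝ) : ℕ → ℕ → ℝ
  | 0, _ => 1
  | k + 1, j => em T tf k (par T k j) * (ic T (k + 1) j (tf k (par T k j)) / ic T k (par T k j) (tf k (par T k j)))

open Classical in
/-- state of a cell: decided at the cells of the levels `k` with `start k` by the criterion `Cr k`, inherited else -/
noncomputable def stE (T : Tr) (start : ℕ → Prop) (Cr : ℕ → ℝ → Prop) : ℕ → ℕ → Prop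
  | 0, _ => False
  | k + 1, j => if start (k + 1) then Cr (k + 1) (T.t (k + 1) j) else stE T start Cr k (par T k j)

open Classical in
/-- the tilting function -/
noncomputable def tfE (u : ℕ → ℝ → ℝ) (g : ℝ → ℝ) (J L B : ℕ → ℕ) (st : ℕ → ℕ → Prop) (k i : ℕ) (x : ℝ) : ℝ :=
  if st k i then ∏ j ∈ Finset.range (L k), g (u (nn B k + J k + j) x) else 1

/-- a tree adapted to the levels `nn B` -/
structure TrE (T : Tr) (u : ℕ → ℝ → ℝ) (a b : ℝ) (B : ℕ → ℕ) : Prop where
  mem : ∀ k i, i ≤ T.N k → T.t k i ∈ Icc a b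
  inc : ∀ k i, i < T.N k → 1 ≤ u (nn B k) (T.t k (i + 1)) - u (nn B k) (T.t k i) ∧
        u (nn B k) (T.t k (i + 1)) - u (nn B k) (T.t k i) ≤ 2

/-- masses on a tree -/
structure Ms (T : Tr) (m : ℕ → ℕ → ℝ) : Prop where
  zero : m 0 0 = 1
  nn : ∀ k i, i < T.N k → 0 ≤ m k i
  sum : ∀ k i, i < T.N k → ∑ j ∈ T.ch k i, m (k + 1) j = m k i

end Pool.Agent.GE
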