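import Pool.Agent.Helper87.GE.Asm
import Pool.Agent.Helper44.GE.CritMass
import Pool.Agent.Helper82.GE.E11

/-!
# GE: the exact dimension, from the bound for the sublevel sets
-/

set_option autoImplicit false
open MeasureTheory Set Filter Topology
open Pool.Agent.Helper78.KD
open Pool.Agent.Helper18.KD (par idx pt)
open Pool.Agent.Helper82.FK (e)
open Pool.Agent.Helper18.GP (gp nm)
open Pool.Agent.Helper59.MF (Dens cc HasLaw DD)

namespace Pool.Agent.GE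

/-- lower bound -/
theorem lower_E_of {a b : ℝ} (ha : 1 < a) (hab : a < b) {H : ℕ} (hE1 : Pool.Agent.Helper44.GE.SubE a b H) {c : ℤ → ℂ} {g : ℝ → ℝ}
    (hg : ∀ t, gp H c t = g t) (hc : c 0 = 1) (hg0 : ∀ t, 0 < g t) (hW : nm H c < a ^ (kE a H)) (s : ℕ → ℝ) :
    ENNReal.ofReal (1 - (∫ t in (0 : ℝ)..1, g t * Real.log (g t)) / Real.log b) ≤
      dimH {x : ℝ | x ∈ Ioo a b ∧ HasLaw (fun n => x ^ (n + 1) + s n) g} := by
  obtain ⟨α, lam, haα, hαb, hl0, hl1, Φ, hΦ, hE7⟩ := Pool.Agent.Helper44.GE.crit_mass_of ha hab hE1 hc hW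
  have hd := dens hg hc hg0
  have hsub : {x : ℝ | x ∈ Ioo a b ∧ ∀ h : ℤ, Tendsto (fun N : ℕ => (∑ n ∈ Finset.range N, e (h * (x ^ (n + 1) + s n))) / (N : ℂ)) atTop
        (𝓝 (cc H c h))} ⊆ {x : ℝ | x ∈ Ioo a b ∧ HasLaw (fun n => x ^ (n + 1) + s n) g} := by
    rintro x ⟨hx, hx1⟩
    refine ⟨hx, Pool.Agent.Helper59.MF.law_of_weyl hd _ fun h _ => ?_⟩
    refine (hx1 h).congr fun N => ?_
    congr 1
    exact Finset.sum_congr rfl fun n _ => (e_eq _).symm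
  refine le_trans ?_ (dimH_mono hsub)
  have hb1 : 1 < b := by linarith
  have hlogb : 0 < Real.log b := Real.log_pos hb1
  have hcont : Tendsto (fun β : ℝ => ENNReal.ofReal (1 - DD g / Real.log β)) (𝓝[<] b) (𝓝 (ENNReal.ofReal (1 - DD g / Real.log b))) := by
    refine ENNReal.tendsto_ofReal ?_
    refine tendsto_const_nhds.sub ?_
    refine Tendsto.div tendsto_const_nhds ?_ hlogb.ne'
    exact ((Real.continuousAt_log (by linarith)).tendsto).mono_left nhdsWithin_le_nhds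
  refine le_of_tendsto hcont ?_
  filter_upwards [Ioo_mem_nhdsLT hαb] with β hβ
  exact lower_beta ha haα hg hc hg0 hW hl0 hl1 hΦ hE7 hβ.1 hβ.2 s

/-- the dimension -/
theorem dim_E_of {a b : ℝ} (ha : 1 < a) (hab : a < b) {H : ℕ} (hH : 1 ≤ H) (hE1 : Pool.Agent.Helper44.GE.SubE a b H) {c : ℤ → ℂ}
    {g : ℝ → ℝ} (hg : ∀ t, gp H c t = g t) (hc : c 0 = 1) (hg0 : ∀ t, 0 < g t) (hW : nm H c < a ^ (kE a H)) (s : ℕ → ℝ) :
    dimH {x : ℝ | x ∈ Ioo a b ∧ HasLaw (fun n => x ^ (n + 1) + s n) g} =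
      ENNReal.ofReal (1 - (∫ t in (0 : ℝ)..1, g t * Real.log (g t)) / Real.log b) :=
  le_antisymm (upper_E ha hab hH hg hc hg0 hW s) (lower_E_of ha hab hE1 hg hc hg0 hW s)

end Pool.Agent.GE
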