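import Pool.Agent.Helper87.GE.Exact
import Pool.Agent.Helper36.GE.E1

/-!
# GE: the exact dimension
-/

set_option autoImplicit false
open MeasureTheory Set Filter Topology
open Pool.Agent.Helper18.GP (gp nm)
open Pool.Agent.Helper59.MF (HasLaw)

namespace Pool.Agent.GE

/-- Let `1 < a < b` and let `g > 0` be a trigonometric polynomial of degree at most `H` with mean one and coefficients `c k`,
`∑ |c k| < a ^ (kE a H)`. The set of the `x` in `(a, b)` for which `x ^ (n + 1) + s n` has the law `g(t) dt` modulo one has the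
dimension `1 - (∫ g log g) / log b`. -/
theorem dim_E {a b : ℝ} (ha : 1 < a) (hab : a < b) {H : ℕ} (hH : 1 ≤ H) {c : ℤ → ℂ} {g : ℝ → ℝ}
    (hg : ∀ t, gp H c t = g t) (hc : c 0 = 1) (hg0 : ∀ t, 0 < g t) (hW : nm H c < a ^ (kE a H)) (s : ℕ → ℝ) :
    dimH {x : ℝ | x ∈ Ioo a b ∧ HasLaw (fun n => x ^ (n + 1) + s n) g} =
      ENNReal.ofReal (1 - (∫ t in (0 : ℝ)..1, g t * Real.log (g t)) / Real.log b) :=
  dim_E_of ha hab hH (fun H' => sublevelE ha hab.le (by exact_mod_cast hH) H') hg hc hg0 hW s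

end Pool.Agent.GE
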