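import Pool.Agent.Helper87.GE.Tree

/-!
# GE: elementary lemmas for the assembly
-/

set_option autoImplicit false
open MeasureTheory Set Filter Topology

namespace Pool.Agent.GE

/-- slowly growing stage function below given thresholds -/
theorem exists_stage (Θ : ℕ → ℕ) : ∃ R : ℕ → ℕ, R 0 = 0 ∧ Monotone R ∧ Tendsto R atTop atTop ∧ ∀ k, R k = 0 ∨ Θ (R k) ≤ k := by
  classical
  set Θ' : ℕ → ℕ := fun r => ∑ i ∈ Finset.range (r + 1), (Θ i + 1) with hΘ'
  have hmono : Monotone Θ' := by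
    intro r r' h
    exact Finset.sum_le_sum_of_subset (Finset.range_subset_range.2 (by omega))
  have hle : ∀ r, Θ r ≤ Θ' r := by
    intro r
    have h1 : Θ r + 1 ≤ Θ' r := Finset.single_le_sum (f := fun i => Θ i + 1) (fun i _ => Nat.zero_le _)
      (Finset.mem_range.2 (Nat.lt_succ_self r))
    omega
  refine ⟨fun k => Nat.findGreatest (fun r => Θ' r ≤ k) k, ?_, ?_, ?_, ?_⟩
  · exact Nat.findGreatest_zero
  · intro k k' h
    exact Nat.findGreatest_mono (fun r hr => le_trans hr h) h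
  · refine tendsto_atTop.2 fun r => ?_
    filter_upwards [eventually_ge_atTop (max r (Θ' r))] with k hk
    exact Nat.le_findGreatest ((le_max_left _ _).trans hk) ((le_max_right _ _).trans hk)
  · intro k
    by_cases h : Nat.findGreatest (fun r => Θ' r ≤ k) k = 0
    · exact Or.inl h
    · right
      exact (hle _).trans (Nat.findGreatest_of_ne_zero (P := fun r => Θ' r ≤ k) (n := k) rfl h)

/-- gap lengths -/
theorem exists_gap (P : ℕ → ℕ → Prop) (hP : ∀ r, ∀ᶠ J in atTop, P r J) : ∃ Jf : ℕ → ℕ, Monotone Jf ∧ (∀ r, r + 1 ≤ Jf r) ∧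
    ∀ r, P r (Jf r) := by
  choose pk hpk using fun r => eventually_atTop.1 (hP r)
  refine ⟨fun r => ∑ i ∈ Finset.range (r + 1), (pk i + 1), ?_, ?_, ?_⟩
  · intro r r' h
    exact Finset.sum_le_sum_of_subset (Finset.range_subset_range.2 (by omega))
  · intro r
    calc r + 1 = ∑ i ∈ Finset.range (r + 1), 1 := by simp
      _ ≤ _ := Finset.sum_le_sum fun i _ => by omega
  · intro r
    refine hpk r _ ?_
    have h1 : pk r + 1 ≤ ∑ i ∈ Finset.range (r + 1), (pk i + 1) :=
      Finset.single_le_sum (f := fun i => pk i + 1) (fun i _ => Nat.zero_le _) (Finset.mem_range.2 (Nat.lt_succ_self r))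
    exact (Nat.le_succ _).trans h1

theorem nn_sum (B : ℕ → ℕ) : ∀ k, nn B k = ∑ i ∈ Finset.range k, B i
  | 0 => rfl
  | k + 1 => by
    rw [Finset.sum_range_succ, ← nn_sum B k]
    rfl

theorem nn_ge {B : ℕ → ℕ} (hB : ∀ k, 1 ≤ B k) (k : ℕ) : k ≤ nn B k := by
  rw [nn_sum]
  calc k = ∑ i ∈ Finset.range k, 1 := by simp
    _ ≤ _ := Finset.sum_le_sum fun i _ => hB i

theorem nn_tendsto {B : ℕ → ℕ} (hB : ∀ k, 1 ≤ B k) : Tendsto (nn B) atTop atTop :=
  tendsto_atTop_mono (nn_ge hB) tendsto_id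

/-- the boundaries grow faster than any multiple of the index -/
theorem nn_mul {B : ℕ → ℕ} (hBi : Tendsto B atTop atTop) (Q : ℕ) : ∃ C : ℕ, ∀ k, Q * k ≤ nn B k + C := by
  obtain ⟨k₀, hk₀⟩ := eventually_atTop.1 (hBi.eventually_ge_atTop Q)
  refine ⟨Q * k₀, fun k => ?_⟩
  rcases le_total k k₀ with h | h
  · have := Nat.mul_le_mul_left Q h
    omega
  · induction k, h using Nat.le_induction with
    | base => omega
    | succ k hk ih =>
      have h1 := hk₀ k hk
      have h2 : nn B (k + 1) = nn B k + B k := rfl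
      rw [h2, Nat.mul_succ]
      omega

/-- blocks are short compared with the boundaries -/
theorem blk_small {B : ℕ → ℕ} (hB : ∀ k, 1 ≤ B k) (hB4 : ∀ k, B k ^ 4 ≤ k + 1) {ε : ℝ} (hε : 0 < ε) :
    ∃ C : ℝ, 0 ≤ C ∧ ∀ k, (B k : ℝ) ≤ ε * nn B k + C := by
  refine ⟨ε + 1 / ε, by positivity, fun k => ?_⟩
  have h1 : (B k : ℝ) ^ 4 ≤ (nn B k : ℝ) + 1 := by
    have h2 : B k ^ 4 ≤ nn B k + 1 := (hB4 k).trans (by have := nn_ge hB k; omega)
    exact_mod_cast h2
  have h3 : (1 : ℝ) ≤ B k := by exact_mod_cast hB k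
  have h4 : (B k : ℝ) ^ 2 ≤ (B k : ℝ) ^ 4 := pow_le_pow_right₀ h3 (by norm_num)
  have h5 : (B k : ℝ) ≤ ε * (B k : ℝ) ^ 2 + 1 / ε := by
    have h6 : 0 ≤ (ε * B k - 1) ^ 2 + ε * B k := by positivity
    have h7 : ε * (B k : ℝ) ^ 2 + 1 / ε - B k = ((ε * B k - 1) ^ 2 + ε * B k) / ε := by
      field_simp
      ring
    have h8 : 0 ≤ ((ε * B k - 1) ^ 2 + ε * B k) / ε := by positivity
    linarith
  calc (B k : ℝ) ≤ ε * (B k : ℝ) ^ 2 + 1 / ε := h5
    _ ≤ ε * ((nn B k : ℝ) + 1) + 1 / ε := by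
        have := mul_le_mul_of_nonneg_left (h4.trans h1) hε.le
        linarith
    _ = _ := by ring

/-- weighted Cesaro means -/
theorem cesaro_nn {B : ℕ → ℕ} (hB : ∀ k, 1 ≤ B k) {x : ℕ → ℝ} (hx0 : ∀ k, 0 ≤ x k)
    (hx : Tendsto (fun k => x k / B k) atTop (𝓝 0)) : Tendsto (fun k => (∑ i ∈ Finset.range k, x i) / nn B k) atTop (𝓝 0) := by
  rw [Metric.tendsto_atTop]
  intro ε hε
  obtain ⟨k₀, hk₀⟩ := eventually_atTop.1 (hx.eventually (gt_mem_nhds (show (0 : ℝ) < ε / 2 by positivity)))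
  set A : ℝ := ∑ i ∈ Finset.range k₀, x i with hA
  have hA0 : 0 ≤ A := Finset.sum_nonneg fun i _ => hx0 i
  have hb : ∀ k, ∑ i ∈ Finset.range k, x i ≤ A + ε / 2 * nn B k := by
    intro k
    rcases le_total k k₀ with h | h
    · have h1 : ∑ i ∈ Finset.range k, x i ≤ A := Finset.sum_le_sum_of_subset_of_nonneg (Finset.range_subset_range.2 h) fun i _ _ => hx0 i
      have : (0 : ℝ) ≤ ε / 2 * nn B k := by positivity
      linarith
    · induction k, h using Nat.le_induction with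
      | base =>
        have : (0 : ℝ) ≤ ε / 2 * nn B k₀ := by positivity
        linarith
      | succ k hk ih =>
        have h1 := hk₀ k hk
        have h2 : (0 : ℝ) < B k := by exact_mod_cast hB k
        rw [div_lt_iff₀ h2] at h1
        have h3 : ((nn B (k + 1) : ℕ) : ℝ) = nn B k + B k := by
          show ((nn B k + B k : ℕ) : ℝ) = _
          push_cast
          ring
        rw [Finset.sum_range_succ, h3]
        linarith
  have hn : Tendsto (fun k => (nn B k : ℝ)) atTop atTop := tendsto_natCast_atTop_atTop.comp (nn_tendsto hB)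
  obtain ⟨k₁, hk₁⟩ := eventually_atTop.1 (hn.eventually_gt_atTop (2 * A / ε + 1))
  refine ⟨k₁, fun k hk => ?_⟩
  have h1 := hk₁ k hk
  have h2 : 0 ≤ 2 * A / ε := by positivity
  have h3 : (0 : ℝ) < nn B k := by linarith
  have h4 : 0 ≤ ∑ i ∈ Finset.range k, x i := Finset.sum_nonneg fun i _ => hx0 i
  rw [Real.dist_eq, sub_zero, abs_of_nonneg (by positivity), div_lt_iff₀ h3]
  have h5 : A < ε / 2 * nn B k := by
    have h6 : 2 * A / ε < nn B k := by linarith
    rw [div_lt_iff₀ hε] at h6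
    linarith
  linarith [hb k]

/-- shifts do not change means -/
theorem shift_mean {F : ℕ → ℂ} {C : ℝ} (hF : ∀ n, ‖F n‖ ≤ C) (n₀ : ℕ) {z : ℂ}
    (h : Tendsto (fun N : ℕ => (∑ n ∈ Finset.range N, F (n + n₀)) / (N : ℂ)) atTop (𝓝 z)) :
    Tendsto (fun N : ℕ => (∑ n ∈ Finset.range N, F n) / (N : ℂ)) atTop (𝓝 z) := by
  have hC : 0 ≤ C := (norm_nonneg _).trans (hF 0)
  have h1 : Tendsto (fun N : ℕ => (∑ n ∈ Finset.range N, F n) / (N : ℂ) - (∑ n ∈ Finset.range N, F (n + n₀)) / (N : ℂ)) atTop (𝓝 0) := by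
    rw [tendsto_zero_iff_norm_tendsto_zero]
    have h2 : Tendsto (fun N : ℕ => (2 * n₀ * C) / (N : ℝ)) atTop (𝓝 0) := tendsto_const_div_atTop_nhds_zero_nat _
    refine squeeze_zero (fun _ => norm_nonneg _) (fun N => ?_) h2
    rw [← sub_div, norm_div, Complex.norm_natCast]
    refine div_le_div_of_nonneg_right ?_ (Nat.cast_nonneg N)
    have h3 : ∑ n ∈ Finset.range N, F n - ∑ n ∈ Finset.range N, F (n + n₀) =
        ∑ n ∈ Finset.range n₀, F n - ∑ n ∈ Finset.range n₀, F (N + n) := by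
      have e1 : ∑ n ∈ Finset.range (n₀ + N), F n = ∑ n ∈ Finset.range n₀, F n + ∑ n ∈ Finset.range N, F (n + n₀) := by
        rw [Finset.sum_range_add]
        congr 1
        exact Finset.sum_congr rfl fun n _ => by rw [add_comm]
      have e2 : ∑ n ∈ Finset.range (N + n₀), F n = ∑ n ∈ Finset.range N, F n + ∑ n ∈ Finset.range n₀, F (N + n) :=
        Finset.sum_range_add _ _ _
      rw [add_comm n₀ N, e2] at e1
      linear_combination e1
    rw [h3]
    refine (norm_sub_le _ _).trans ?_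
    have h4 : ‖∑ n ∈ Finset.range n₀, F n‖ ≤ n₀ * C := by
      refine (norm_sum_le _ _).trans ((Finset.sum_le_sum fun n _ => hF n).trans (le_of_eq ?_))
      simp
    have h5 : ‖∑ n ∈ Finset.range n₀, F (N + n)‖ ≤ n₀ * C := by
      refine (norm_sum_le _ _).trans ((Finset.sum_le_sum fun n _ => hF _).trans (le_of_eq ?_))
      simp
    linarith
  have h6 := h1.add h
  simpa using h6

end Pool.Agent.GE
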