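import Pool.Agent.Helper87.GE.Defs

/-!
# GE: the tree (E5) and the masses (E6)
-/

set_option autoImplicit false
open MeasureTheory Set Filter Topology
open Pool.Agent.Helper78.KD
open Pool.Agent.Helper18.KD (par idx pt Npos J_mono J_lt J_le t_mono len_pos par_lt par_eq exists_par ch_lt idx_lt idx_child pt_mem)
open Pool.Agent.Helper82.FK (e)
open Pool.Agent.Helper18.GP (gp nm)
open Pool.Agent.Helper87.GP (Z fz cut contOn_u incr incr_nonneg osc_S osc_cell C0)

namespace Pool.Agent.GE

/-- iterated index map -/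
def Jit (T : Tr) (n : ℕ) : ℕ → ℕ → ℕ
  | 0, i => i
  | d + 1, i => T.J (n + d) (Jit T n d i)

theorem Jit_le (T : Tr) (n : ℕ) {i : ℕ} (hi : i ≤ T.N n) : ∀ d, Jit T n d i ≤ T.N (n + d)
  | 0 => hi
  | d + 1 => J_le T (n + d) (Jit_le T n hi d)

theorem Jit_zero (T : Tr) (n : ℕ) : ∀ d, Jit T n d 0 = 0
  | 0 => rfl
  | d + 1 => by
    show T.J (n + d) (Jit T n d 0) = 0
    rw [Jit_zero T n d, T.J0]

theorem Jit_top (T : Tr) (n : ℕ) : ∀ d, Jit T n d (T.N n) = T.N (n + d)
  | 0 => rfl
  | d + 1 => by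
    show T.J (n + d) (Jit T n d (T.N n)) = T.N (n + d + 1)
    rw [Jit_top T n d, T.JN]

theorem Jit_lt (T : Tr) (n : ℕ) {i : ℕ} (hi : i < T.N n) : ∀ d, Jit T n d i < Jit T n d (i + 1)
  | 0 => Nat.lt_succ_self i
  | d + 1 => J_lt T (n + d) (Jit_lt T n hi d) (Jit_le T n hi d)

theorem Jit_ref (T : Tr) (n : ℕ) {i : ℕ} (hi : i ≤ T.N n) : ∀ d, T.t (n + d) (Jit T n d i) = T.t n i
  | 0 => rfl
  | d + 1 => by
    show T.t (n + d + 1) (T.J (n + d) (Jit T n d i)) = T.t n i
    rw [T.ref (n + d) _ (Jit_le T n hi d), Jit_ref T n hi d]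

/-- the levels `nn B` of a tree -/
def sub (T : Tr) (B : ℕ → ℕ) : Tr where
  N k := T.N (nn B k)
  t k := T.t (nn B k)
  J k i := Jit T (nn B k) (B k) i
  hN := T.hN
  lt k i hi := T.lt (nn B k) i hi
  J0 k := Jit_zero T (nn B k) (B k)
  JN k := Jit_top T (nn B k) (B k)
  Jlt k _ hi := Jit_lt T (nn B k) hi (B k)
  ref k _ hi := Jit_ref T (nn B k) hi (B k)

theorem exists_treeE {u v : ℕ → ℝ → ℝ} {a b β₁ β₂ : ℝ} (hF : Fam u v a b β₁ β₂) (B : ℕ → ℕ) :
    ∃ T : Tr, T.t 0 0 = a ∧ T.t 0 1 = b ∧ TrE T u a b B := by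
  obtain ⟨T, ht0, ht1, hmem, -, hinc⟩ := Pool.Agent.Helper53.KD.exists_tree hF 1 le_rfl
  refine ⟨sub T B, ht0, ht1, fun k i hi => hmem (nn B k) i hi, fun k i hi => ?_⟩
  have h := hinc (nn B k) i hi
  rw [mul_one] at h
  exact h

/-! ### masses -/

variable {T : Tr} {a b : ℝ}

theorem ic_sum {f : ℝ → ℝ} (hmem : ∀ k i, i ≤ T.N k → T.t k i ∈ Icc a b) (hf : ContinuousOn f (Icc a b)) {k i : ℕ}
    (hi : i < T.N k) : ∑ j ∈ T.ch k i, ic T (k + 1) j f = ic T k i f := by
  have hle : T.J k i ≤ T.J k (i + 1) := (T.Jlt k i hi).le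
  unfold Tr.ch ic
  rw [intervalIntegral.sum_integral_adjacent_intervals_Ico hle fun j hj => ?_, T.ref k i hi.le, T.ref k (i + 1) hi]
  have hj' : j < T.N (k + 1) := lt_of_lt_of_le hj.2 (J_le T k hi)
  refine ContinuousOn.intervalIntegrable (hf.mono ?_)
  exact uIcc_subset_Icc (hmem (k + 1) j hj'.le) (hmem (k + 1) (j + 1) hj')

theorem ic_int {f : ℝ → ℝ} (hmem : ∀ k i, i ≤ T.N k → T.t k i ∈ Icc a b) (hf : ContinuousOn f (Icc a b)) {k i : ℕ}
    (hi : i < T.N k) : IntervalIntegrable f volume (T.t k i) (T.t k (i + 1)) :=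
  ContinuousOn.intervalIntegrable (hf.mono (uIcc_subset_Icc (hmem k i hi.le) (hmem k (i + 1) hi)))

theorem cell_sub (hmem : ∀ k i, i ≤ T.N k → T.t k i ∈ Icc a b) {k i : ℕ} (hi : i < T.N k) :
    Icc (T.t k i) (T.t k (i + 1)) ⊆ Icc a b := Icc_subset_Icc (hmem k i hi.le).1 (hmem k (i + 1) hi).2

theorem ic_pos {f : ℝ → ℝ} (hmem : ∀ k i, i ≤ T.N k → T.t k i ∈ Icc a b) (hf : ContinuousOn f (Icc a b))
    (hpos : ∀ x ∈ Icc a b, 0 < f x) {k i : ℕ} (hi : i < T.N k) : 0 < ic T k i f := by
  unfold ic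
  refine intervalIntegral.intervalIntegral_pos_of_pos_on (ic_int hmem hf hi) (fun x hx => ?_) (T.lt k i hi)
  exact hpos x (cell_sub hmem hi (Ioo_subset_Icc_self hx))

theorem ic_mono {f g : ℝ → ℝ} (hmem : ∀ k i, i ≤ T.N k → T.t k i ∈ Icc a b) (hf : ContinuousOn f (Icc a b))
    (hg : ContinuousOn g (Icc a b)) {k i : ℕ} (hi : i < T.N k) (h : ∀ x ∈ T.cell k i, f x ≤ g x) :
    ic T k i f ≤ ic T k i g :=
  intervalIntegral.integral_mono_on (T.lt k i hi).le (ic_int hmem hf hi) (ic_int hmem hg hi) h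

theorem ic_const (k i : ℕ) (r : ℝ) : ic T k i (fun _ => r) = r * T.len k i := by
  unfold ic Tr.len
  rw [intervalIntegral.integral_const, smul_eq_mul, mul_comm]

theorem em_succ {tf : ℕ → ℕ → ℝ → ℝ} {k i j : ℕ} (hi : i < T.N k) (hj : j ∈ T.ch k i) :
    em T tf (k + 1) j = em T tf k i * (ic T (k + 1) j (tf k i) / ic T k i (tf k i)) := by
  simp only [em]
  rw [par_eq T k hi hj]

theorem em_ms {tf : ℕ → ℕ → ℝ → ℝ} (hmem : ∀ k i, i ≤ T.N k → T.t k i ∈ Icc a b)
    (hc : ∀ k i, ContinuousOn (tf k i) (Icc a b)) (hpos : ∀ k i, ∀ x ∈ Icc a b, 0 < tf k i x) : Ms T (em T tf) := by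
  have hnn : ∀ k i, i < T.N k → 0 ≤ em T tf k i := by
    intro k
    induction k with
    | zero => intro i _; simp [em]
    | succ k ih =>
      intro j hj
      obtain ⟨i, hi, hji⟩ := exists_par T k j hj
      rw [em_succ hi hji]
      exact mul_nonneg (ih i hi) (div_nonneg (ic_pos hmem (hc k i) (hpos k i) hj).le (ic_pos hmem (hc k i) (hpos k i) hi).le)
  refine ⟨rfl, hnn, fun k i hi => ?_⟩
  rw [Finset.sum_congr rfl fun j hj => em_succ hi hj, ← Finset.mul_sum, ← Finset.sum_div, ic_sum hmem (hc k i) hi,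
    div_self (ic_pos hmem (hc k i) (hpos k i) hi).ne', mul_one]

variable {u v : ℕ → ℝ → ℝ} {g : ℝ → ℝ} {β₁ β₂ : ℝ} {J L B : ℕ → ℕ} {st : ℕ → ℕ → Prop}

theorem tfE_cont (hF : Fam u v a b β₁ β₂) (hg : Continuous g) (k i : ℕ) : ContinuousOn (tfE u g J L B st k i) (Icc a b) := by
  classical
  by_cases h : st k i
  · have e1 : tfE u g J L B st k i = fun x => ∏ j ∈ Finset.range (L k), g (u (nn B k + J k + j) x) := by
      funext x
      simp only [tfE, if_pos h]
    rw [e1]
    exact continuousOn_finsetProd _ fun m _ => hg.comp_continuousOn (contOn_u hF _)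
  · have e1 : tfE u g J L B st k i = fun _ => 1 := by
      funext x
      simp only [tfE, if_neg h]
    rw [e1]
    exact continuousOn_const

theorem tfE_pos (hg0 : ∀ t, 0 < g t) (k i : ℕ) (x : ℝ) : 0 < tfE u g J L B st k i x := by
  unfold tfE
  split_ifs
  · exact Finset.prod_pos fun _ _ => hg0 _
  · exact one_pos

theorem em_crude {M : ℝ} (hF : Fam u v a b β₁ β₂) (hg : Continuous g)
    (hg0 : ∀ t, 0 < g t) (hM : ∀ t, g t ≤ M) (hB : ∀ k, B k = J k + L k) (hT : TrE T u a b B)
    (hM1 : 1 ≤ M)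
    (hI : ∀ k i, i < T.N k → st k i → T.len k i / 2 ≤ ic T k i (tfE u g J L B st k i)) :
    ∀ k i, i < T.N k → em T (tfE u g J L B st) k i ≤ T.len k i / T.len 0 0 * 2 ^ k * M ^ (nn B k) := by
  classical
  have hM0 : 0 < M := by linarith
  have hl0 : 0 < T.len 0 0 := len_pos T 0 (Npos T 0)
  have hms := em_ms hT.mem (tfE_cont (J := J) (L := L) (B := B) (st := st) hF hg) (fun k i x _ => tfE_pos hg0 k i x)
  intro k
  induction k with
  | zero =>
    intro i hi
    have h0 : i = 0 := by rw [T.hN] at hi; omega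
    subst h0
    simp [em, nn, hl0.ne']
  | succ k ih =>
    intro j hj
    obtain ⟨i, hi, hji⟩ := exists_par T k j hj
    rw [em_succ hi hji]
    have h1 := ih i hi
    have hl := len_pos T k hi
    have hlj := len_pos T (k + 1) hj
    have hr : ic T (k + 1) j (tfE u g J L B st k i) / ic T k i (tfE u g J L B st k i) ≤
        T.len (k + 1) j / T.len k i * (2 * M ^ (B k)) := by
      have hMB : (1 : ℝ) ≤ M ^ (B k) := one_le_pow₀ hM1
      by_cases h : st k i
      · have h2 : ic T (k + 1) j (tfE u g J L B st k i) ≤ M ^ (L k) * T.len (k + 1) j := by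
          rw [← ic_const]
          refine ic_mono hT.mem (tfE_cont hF hg k i) continuousOn_const hj fun x _ => ?_
          simp only [tfE, if_pos h]
          calc ∏ j ∈ Finset.range (L k), g (u (nn B k + J k + j) x) ≤ ∏ j ∈ Finset.range (L k), M :=
                Finset.prod_le_prod (fun _ _ => (hg0 _).le) fun _ _ => hM _
            _ = M ^ (L k) := by simp
        have h3 := hI k i hi h
        have h4 : M ^ (L k) ≤ M ^ (B k) := pow_le_pow_right₀ hM1 (by rw [hB]; omega)
        calc ic T (k + 1) j (tfE u g J L B st k i) / ic T k i (tfE u g J L B st k i) ≤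
              (M ^ (B k) * T.len (k + 1) j) / (T.len k i / 2) := by
              refine div_le_div₀ (by positivity) (h2.trans ?_) (by positivity) h3
              exact mul_le_mul_of_nonneg_right h4 hlj.le
          _ = _ := by field_simp
      · have e1 : tfE u g J L B st k i = fun _ => 1 := by
          funext x
          simp only [tfE, if_neg h]
        rw [e1, ic_const, ic_const, one_mul, one_mul]
        refine le_mul_of_one_le_right (by positivity) ?_
        linarith
    have hnn := hms.nn k i hi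
    calc em T (tfE u g J L B st) k i * (ic T (k + 1) j (tfE u g J L B st k i) / ic T k i (tfE u g J L B st k i)) ≤
          (T.len k i / T.len 0 0 * 2 ^ k * M ^ (nn B k)) * (T.len (k + 1) j / T.len k i * (2 * M ^ (B k))) := by
          refine mul_le_mul h1 hr ?_ (by positivity)
          exact div_nonneg (ic_pos hT.mem (tfE_cont hF hg k i) (fun x _ => tfE_pos hg0 k i x) hj).le
            (ic_pos hT.mem (tfE_cont hF hg k i) (fun x _ => tfE_pos hg0 k i x) hi).le
      _ = T.len (k + 1) j / T.len 0 0 * 2 ^ (k + 1) * M ^ (nn B k + B k) := by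
          rw [pow_succ, pow_add]
          field_simp
      _ = _ := rfl

/-- the sum over a part of a block varies little on a cell -/
theorem part_osc (hF : Fam u v a b β₁ β₂) {φ : ℝ → ℝ} {K : ℝ} (hK : 0 ≤ K) (hlip : ∀ s t, |φ s - φ t| ≤ K * |s - t|)
    {n m : ℕ} (hnm : m ≤ n) {x y : ℝ} (hx : x ∈ Icc a b) (hy : y ∈ Icc a b) (hxy : x ≤ y) (h2 : u n y - u n x ≤ 2) :
    |S φ u m x - S φ u m y| ≤ C0 K β₁ := by
  have h3 : ∀ n, m ≤ n → u m y - u m x ≤ u n y - u n x := by
    intro n hn
    induction n, hn using Nat.le_induction with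
    | base => exact le_rfl
    | succ n hn ih =>
      have h4 := incr hF n hx hy hxy
      have h5 := incr_nonneg hF n hx hy hxy
      have := hF.hβ
      nlinarith
  exact osc_cell hF hK hlip m hx hy hxy ((h3 n hnm).trans h2)

theorem em_path (hF : Fam u v a b β₁ β₂) (hg : Continuous g)
    (hg0 : ∀ t, 0 < g t) {K : ℝ} (hK : 0 ≤ K) (hlip : ∀ s t, |Real.log (g s) - Real.log (g t)| ≤ K * |s - t|)
    {B0 : ℝ} (hB0 : ∀ t, |Real.log (g t)| ≤ B0) (hB : ∀ k, B k = J k + L k) (hT : TrE T u a b B)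
    (hI : ∀ k i, i < T.N k → st k i → T.len k i / 2 ≤ ic T k i (tfE u g J L B st k i)) :
    ∃ D : ℝ, 0 ≤ D ∧ ∀ w ∈ Ico (0 : ℝ) 1, (∀ᶠ k in atTop, st k (idx T (em T (tfE u g J L B st)) k w)) →
      ∃ D' : ℝ, ∀ k, em T (tfE u g J L B st) k (idx T (em T (tfE u g J L B st)) k w) ≤
        T.len k (idx T (em T (tfE u g J L B st)) k w) *
          Real.exp (D' + S (fun t => Real.log (g t)) u (nn B k) (pt T (em T (tfE u g J L B st)) w) +
            ∑ i ∈ Finset.range k, D * (J i + 1)) := by
  classical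
  set m := em T (tfE u g J L B st) with hm
  set φ : ℝ → ℝ := fun t => Real.log (g t) with hφ
  have hms : Ms T m := em_ms hT.mem (tfE_cont hF hg) (fun k i x _ => tfE_pos hg0 k i x)
  have hB00 : 0 ≤ B0 := (abs_nonneg _).trans (hB0 0)
  have hC0 : 0 ≤ C0 K β₁ := by
    unfold C0
    have := hF.hβ
    exact div_nonneg (by positivity) (by linarith)
  set D : ℝ := 2 * C0 K β₁ + Real.log 2 + B0 with hD
  have hlog2 : 0 < Real.log 2 := Real.log_pos (by norm_num)
  refine ⟨D, by positivity, fun w hw hst => ?_⟩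
  set X := pt T m w with hX
  have hidx : ∀ k, idx T m k w < T.N k := fun k => idx_lt k w
  have hchild : ∀ k, idx T m (k + 1) w ∈ T.ch k (idx T m k w) := fun k => by
    have := idx_child hms.zero hms.nn hms.sum k hw.1 hw.2
    unfold Tr.ch
    exact Finset.mem_Ico.2 this
  have hXc : ∀ k, X ∈ T.cell k (idx T m k w) := fun k => pt_mem hms.zero hms.nn hms.sum k hw.1 hw.2
  -- one step
  have hstep : ∀ k, st k (idx T m k w) → m (k + 1) (idx T m (k + 1) w) ≤
      m k (idx T m k w) * (T.len (k + 1) (idx T m (k + 1) w) / T.len k (idx T m k w)) *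
        Real.exp (S φ u (nn B (k + 1)) X - S φ u (nn B k) X + D * (J k + 1)) := by
    intro k hk
    set i := idx T m k w with hi
    set j := idx T m (k + 1) w with hj
    have hiN := hidx k
    have hjN := hidx (k + 1)
    have hl := len_pos T k hiN
    have hlj := len_pos T (k + 1) hjN
    rw [hm, em_succ hiN (hchild k), ← hm]
    have hsub := cell_sub hT.mem hjN
    -- the bound for the product on the child
    have hprod : ∀ x ∈ T.cell (k + 1) j, tfE u g J L B st k i x ≤
        Real.exp (S φ u (nn B (k + 1)) X - S φ u (nn B k) X + B0 * J k + 2 * C0 K β₁) := by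
      intro x hx
      simp only [tfE, if_pos hk]
      have e1 : ∏ l ∈ Finset.range (L k), g (u (nn B k + J k + l) x) =
          Real.exp (S φ u (nn B (k + 1)) x - S φ u (nn B k + J k) x) := by
        have e2 : nn B (k + 1) = nn B k + J k + L k := by
          show nn B k + B k = _
          rw [hB]
          ring
        rw [e2]
        unfold S
        rw [Finset.sum_range_add, add_sub_cancel_left, Real.exp_sum]
        exact Finset.prod_congr rfl fun l _ => (Real.exp_log (hg0 _)).symm
      rw [e1]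
      refine Real.exp_le_exp.2 ?_
      have hinc := (hT.inc (k + 1) j hjN).2
      have hXj := hXc (k + 1)
      have htj := T.lt (k + 1) j hjN
      have o : ∀ n, n ≤ nn B (k + 1) → |S φ u n x - S φ u n X| ≤ C0 K β₁ := by
        intro n hn
        have hxI := hsub hx
        have hXI := hsub hXj
        have mono : ∀ {p q : ℝ}, p ∈ T.cell (k + 1) j → q ∈ T.cell (k + 1) j → p ≤ q →
            u (nn B (k + 1)) q - u (nn B (k + 1)) p ≤ 2 := by
          intro p q hp hq hpq
          have h1 := incr_nonneg hF (nn B (k + 1)) (hT.mem (k + 1) j hjN.le) (hsub hp) hp.1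
          have h2 := incr_nonneg hF (nn B (k + 1)) (hsub hq) (hT.mem (k + 1) (j + 1) hjN) hq.2
          linarith
        rcases le_total x X with hxX | hxX
        · exact part_osc hF hK hlip hn hxI hXI hxX (mono hx hXj hxX)
        · rw [abs_sub_comm]
          exact part_osc hF hK hlip hn hXI hxI hxX (mono hXj hx hxX)
      have o1 := abs_le.1 (o (nn B (k + 1)) le_rfl)
      have hle2 : nn B k + J k ≤ nn B (k + 1) := by
        show nn B k + J k ≤ nn B k + B k
        rw [hB]
        omega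
      have o2 := abs_le.1 (o (nn B k + J k) hle2)
      have o3 : |S φ u (nn B k + J k) X - S φ u (nn B k) X| ≤ B0 * J k := by
        unfold S
        rw [Finset.sum_range_add, add_sub_cancel_left]
        refine (Finset.abs_sum_le_sum_abs _ _).trans ((Finset.sum_le_sum fun l _ => hB0 _).trans ?_)
        simp [mul_comm]
      have o4 := abs_le.1 o3
      linarith [o1.2, o2.1, o4.1]
    have hnum : ic T (k + 1) j (tfE u g J L B st k i) ≤
        Real.exp (S φ u (nn B (k + 1)) X - S φ u (nn B k) X + B0 * J k + 2 * C0 K β₁) * T.len (k + 1) j := by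
      rw [← ic_const]
      exact ic_mono hT.mem (tfE_cont hF hg k i) continuousOn_const hjN hprod
    have hden := hI k i hiN hk
    have hmi := hms.nn k i hiN
    have hE0 : 0 < Real.exp (S φ u (nn B (k + 1)) X - S φ u (nn B k) X + B0 * J k + 2 * C0 K β₁) := Real.exp_pos _
    calc m k i * (ic T (k + 1) j (tfE u g J L B st k i) / ic T k i (tfE u g J L B st k i)) ≤
          m k i * ((Real.exp (S φ u (nn B (k + 1)) X - S φ u (nn B k) X + B0 * J k + 2 * C0 K β₁) * T.len (k + 1) j) /
            (T.len k i / 2)) := by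
          refine mul_le_mul_of_nonneg_left ?_ hmi
          exact div_le_div₀ (by positivity) hnum (by positivity) hden
      _ = m k i * (T.len (k + 1) j / T.len k i) *
            (2 * Real.exp (S φ u (nn B (k + 1)) X - S φ u (nn B k) X + B0 * J k + 2 * C0 K β₁)) := by
          field_simp
      _ ≤ m k i * (T.len (k + 1) j / T.len k i) *
            Real.exp (S φ u (nn B (k + 1)) X - S φ u (nn B k) X + D * (J k + 1)) := by
          refine mul_le_mul_of_nonneg_left ?_ (mul_nonneg hmi (by positivity))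
          have e2 : (2 : ℝ) = Real.exp (Real.log 2) := (Real.exp_log (by norm_num)).symm
          rw [e2, ← Real.exp_add]
          refine Real.exp_le_exp.2 ?_
          have hJ0 : (0 : ℝ) ≤ J k := Nat.cast_nonneg _
          rw [hD]
          nlinarith [mul_nonneg hC0 hJ0, mul_nonneg hlog2.le hJ0]
  -- from the level `k₁` on
  obtain ⟨k₁, hk₁⟩ := eventually_atTop.1 hst
  set R : ℕ → ℝ := fun k => S φ u (nn B k) X + ∑ i ∈ Finset.range k, D * ((J i : ℝ) + 1) with hR
  have hpos : ∀ k, 0 < T.len k (idx T m k w) := fun k => len_pos T k (hidx k)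
  -- constants for the first levels
  obtain ⟨A, hA0, hA⟩ : ∃ A : ℝ, 0 ≤ A ∧ ∀ k ≤ k₁, m k (idx T m k w) ≤ T.len k (idx T m k w) * (A * Real.exp (R k)) := by
    refine ⟨∑ k ∈ Finset.range (k₁ + 1), m k (idx T m k w) / (T.len k (idx T m k w) * Real.exp (R k)),
      Finset.sum_nonneg fun k _ => div_nonneg (hms.nn _ _ (hidx k)) (mul_pos (hpos k) (Real.exp_pos _)).le, fun k hk => ?_⟩
    have h1 := Finset.single_le_sum (f := fun k => m k (idx T m k w) / (T.len k (idx T m k w) * Real.exp (R k)))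
      (fun k _ => div_nonneg (hms.nn _ _ (hidx k)) (mul_pos (hpos k) (Real.exp_pos _)).le)
      (Finset.mem_range.2 (Nat.lt_succ_of_le hk))
    rw [div_le_iff₀ (mul_pos (hpos k) (Real.exp_pos _))] at h1
    calc _ ≤ _ := h1
      _ = _ := by ring
  have hall : ∀ k, m k (idx T m k w) ≤ T.len k (idx T m k w) * (A * Real.exp (R k)) := by
    intro k
    rcases le_total k k₁ with hk | hk
    · exact hA k hk
    · induction k, hk using Nat.le_induction with
      | base => exact hA k₁ le_rfl
      | succ k hk ih =>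
        refine (hstep k (hk₁ k hk)).trans ?_
        have hmul : m k (idx T m k w) * (T.len (k + 1) (idx T m (k + 1) w) / T.len k (idx T m k w)) ≤
            T.len k (idx T m k w) * (A * Real.exp (R k)) * (T.len (k + 1) (idx T m (k + 1) w) / T.len k (idx T m k w)) :=
          mul_le_mul_of_nonneg_right ih (div_nonneg (hpos _).le (hpos _).le)
        refine (mul_le_mul_of_nonneg_right hmul (Real.exp_pos _).le).trans (le_of_eq ?_)
        have e3 : R (k + 1) = R k + (S φ u (nn B (k + 1)) X - S φ u (nn B k) X + D * (J k + 1)) := by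
          simp only [hR, Finset.sum_range_succ]
          ring
        rw [e3, Real.exp_add (R k)]
        have h8 := (hpos k).ne'
        generalize T.len k (idx T m k w) = z1 at h8 ⊢
        generalize T.len (k + 1) (idx T m (k + 1) w) = z2
        generalize Real.exp (S φ u (nn B (k + 1)) X - S φ u (nn B k) X + D * (J k + 1)) = z3
        field_simp
  refine ⟨Real.log (A + 1), fun k => (hall k).trans ?_⟩
  refine mul_le_mul_of_nonneg_left ?_ (hpos k).le
  have e4 : Real.log (A + 1) + S φ u (nn B k) X + ∑ i ∈ Finset.range k, D * ((J i : ℝ) + 1) = Real.log (A + 1) + R k := by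
    simp only [hR]
    ring
  rw [e4, Real.exp_add (Real.log (A + 1)), Real.exp_log (by linarith)]
  exact mul_le_mul_of_nonneg_right (by linarith) (Real.exp_pos _).le

end Pool.Agent.GE
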